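import Mathlib
import Pool.Agent.helper37.ND.Spec
import Pool.Agent.helper7.ZB.SpecT
import Pool.Agent.helper97.NA.SpecE

/-!
# MP_baa4d7_al, THEOREM ZD: Dade's conjecture FOR EVERY `d` (`E = G`) for blocks with a large centre of the defect group, one invariant of which is dominating

THEOREM. `B` a block with defect group `D`, `Z ≤ Z(D)`, `|D : Z| ≤ p ^ a`, `Z` of rank at most `r`, the largest invariant `p ^ n₁` of `Z` large compared with the second `p ^ n₂` (`n₁ ≥ n₂ + N(a, r)`): `O_p(G) = 1` implies that for every `d` the alternating sum is `0`. It contains THEOREM ND (`r = 1`) qualitatively, and its class (D nonabelian, centre not cyclic) is that of THEOREM ZB with `k = 1`.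

METHOD. `E = EQ p s D` (ZB, `k = 1`) has order `p`, `s = n₂ + a`, `E = Ω_1(V)`, `V = Z ^ p ^ (s - a)` cyclic. The main chain of ND (the groups `Zg`, the *-construction, the coherence) uses only unit classes `z x`, `z` of order `p ^ e = exp Z`, and the group theoretic facts ZGD; all is PORTED from ND with `m : ℕ` replaced by `m : Pm` (`κ`) and the condition `cd` of `Ucl` replaced by `df`: there is a
defect group in the class `KY p e m`. The numbers `Zg p e m` become `Zg p e m.a`. The block T (sum over `E'`) is ported from ZB (`BQ`, `KZ`; local subgroups).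

RULES FOR ROWS. File `Pool/Agent/<seat>/ZD/XXX.lean` with

  import Pool.Agent.helper7.ZD.Spec
  set_option autoImplicit false
  namespace Pool.Agent.ND.NY
  open Pool.Agent.helper58.DC Pool.Agent.DI Pool.Agent.GR Pool.Agent.OB Pool.Agent.DR Pool.Agent.FI Pool.Agent.FI3 Pool.Agent.FI4 Pool.Agent.FI4I Pool.Agent.LE Pool.Agent.L5 Pool.Agent.NAB
  open Pool.Agent.ZB (Pm Om KZ EQ BQ lQ MZc BDK)
  theorem XXX (hYYY : YYY_stmt) ... : XXX_stmt := ...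
  end Pool.Agent.ND.NY

auxiliary lemmas prefixed `XXX_`, no sorry, no double quotes in the file, no `convert`, no `congr!`. Inside of this namespace `Ucl`, `GS`, `ZD`, `XX`, `PP` and the rows of this file have priority over those of `ND` and `NAB`; rows of `ND` which are not restated here (TEX ZGP ZLM GVN GIL GRT GOB GKR GCL GKN KIP AVG KCO KC1) can be written without prefix; rows of `ZB` with prefix: `Pool.Agent.ZB.ZE1_stmt`, rows of `NAB` which are restated here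
with prefix: `Pool.Agent.NAB.NUH_stmt`. All rows of all earlier specs may be added as further hypotheses (hypothesis-free versions: `helper37/ND/All`, `helper7/ZB/AllT`).
-/

set_option autoImplicit false

namespace Pool.Agent.ND.NY

open Pool.Agent.helper58.DC Pool.Agent.DI Pool.Agent.GR Pool.Agent.OB Pool.Agent.DR Pool.Agent.FI Pool.Agent.FI3 Pool.Agent.FI4 Pool.Agent.FI4I Pool.Agent.LE Pool.Agent.L5 Pool.Agent.NAB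
open Pool.Agent.ZB (Pm Om KZ EQ BQ lQ MZc BDK)

section

variable {G : Type} [Group G]

/-- The class of `p`-groups: `KZ` with `k = 1` for a central subgroup `Z` of exponent `p ^ e`, `κ.s + κ.a + 5 ≤ e`. -/
def KY (p e : ℕ) (κ : Pm) (Q : Subgroup G) : Prop :=
  κ.a ≤ κ.s ∧ κ.s + κ.a + 5 ≤ e ∧ κ.k = 1 ∧ IsPGroup p Q ∧ ∃ Z ≤ Q, (∀ z ∈ Z, ∀ x ∈ Q, z * x = x * z) ∧ Nat.card Q ≤ p ^ κ.a * Nat.card Z ∧
    (Om p 0 Z).ncard ≤ p ^ κ.r ∧ (Om p (κ.s - κ.a) Z).ncard = p ^ κ.k ∧ (Om p (κ.s + κ.w) Z).ncard = p ^ κ.k ∧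
    (∀ z ∈ Z, z ^ p ^ e = 1) ∧ ∃ z ∈ Z, orderOf z = p ^ e

/-- A unit class `cls L (z * x)` of the block of `ψ` in `L`, `z` of order `p ^ e`, which has a defect group in `KY`. -/
structure Ucl (p e : ℕ) (m : Pm) (M : Ideal (integralClosure ℤ ℂ)) (L : Subgroup G) (ψ : G → ℂ) (z x : G) : Prop where
  pe : PEl p z
  re : PReg p x
  co : z * x = x * z
  zm : z ∈ L
  xm : x ∈ L
  od : orderOf z = p ^ e
  ne : ¬ InM M (cc ψ (cls L (z * x)))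
  df : ∃ (D : Subgroup G) (y : G), DefL p M L ψ D y ∧ KY p e m D

/-- The characters `ψ` of `L` in blocks over `B` with a unit class `z x`, `Zg z = Z`. -/
def GS (p e : ℕ) (m : Pm) (M : Ideal (integralClosure ℤ ℂ)) (χ : G → ℂ) (L Z : Subgroup G) : Set (G → ℂ) :=
  {ψ | ψ ∈ IrrOn L ∧ SB M (⊤ : Subgroup G) ψ χ ∧ ∃ z x : G, Ucl p e m M L ψ z x ∧ Zg p e m.a z = Z}

/-- The standing hypothesis. -/
structure ZD (p e : ℕ) (m : Pm) (t : ℕ) (M : Ideal (integralClosure ℤ ℂ)) (χ : G → ℂ) (Z : Subgroup G) (z x : G) : Prop where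
  em : 2 * m.a + 5 ≤ e
  tx : Tx p e t G
  ch : χ ∈ IrrOn (⊤ : Subgroup G)
  uc : Ucl p e m M (⊤ : Subgroup G) χ z x
  zz : Zg p e m.a z = Z

/-- `X` as a type -/
abbrev XX (p e : ℕ) (m : Pm) (M : Ideal (integralClosure ℤ ℂ)) (χ : G → ℂ) (Z : Subgroup G) : Type := {θ : G → ℂ // θ ∈ GS p e m M χ (cz Z) Z}

/-- `GS L` as a type -/
abbrev PP (p e : ℕ) (m : Pm) (M : Ideal (integralClosure ℤ ℂ)) (χ : G → ℂ) (L Z : Subgroup G) : Type := {ψ : G → ℂ // ψ ∈ GS p e m M χ L Z}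

end

/-! ## 1. The class `KY` (pure group theory) -/

/-- **YE1** (short to medium; pure; from ZE1, ZE2 of ZB). (1) forget. (2) as ZE2 (2): `Z ≤ Q ⊓ cz Q₁ ≤ Q₁` for `Z` as in `KY`, `|Q₁| ≤ |Q|`; the same `Z`. (3) conjugation (`Z` becomes `cjS g Z`; COPY `ZE2`, `helper14/ZB/ZE2.lean`). (4) `z ^ p ^ (e - 1) ≠ 1` has order `p` and is a `p ^ s`-th power of an element of `Q` (`s ≤ e - 1`), so `Eg p e z ≤ EQ p κ.s Q` (ZE1 (1)), which has `p ^ 1` elements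
(ZE1 (2)): equal. (5) from the definition. (6) `Z` as in `KZ`: a finite commutative `p`-group; let `z₀ ∈ Z` be of maximal order `p ^ e` (all orders are powers of `p`, so `z ^ p ^ e = 1` for all `z ∈ Z`). `(Om p (κ.s + κ.w) Z).ncard = p ^ 1 > 1`: there is `z ∈ Z` with `z ^ p ^ (κ.s + κ.w) ≠ 1`, so `κ.s + κ.w < e`. -/
def YE1_stmt : Prop :=
  ∀ (p : ℕ), p.Prime → ∀ (κ : Pm) (G : Type) [Group G] [Finite G] (Q : Subgroup G),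
    (∀ e : ℕ, KY p e κ Q → KZ p κ Q ∧ 2 * κ.a + 5 ≤ e ∧ κ.k = 1 ∧
      (∀ Q₁ : Subgroup G, Q₁ ≤ Q → Q ⊓ cz Q₁ ≤ Q₁ → KY p e κ Q₁) ∧
      (∀ g : G, KY p e κ (cjS g Q)) ∧
      (∀ z ∈ Q, orderOf z = p ^ e → Eg p e z = EQ p κ.s Q) ∧
      ∃ z ∈ Q, (∀ x ∈ Q, z * x = x * z) ∧ orderOf z = p ^ e) ∧
    (KZ p κ Q → κ.k = 1 → κ.a + 4 ≤ κ.w → ∃ e : ℕ, KY p e κ Q)

/-- **ZGD** (medium; pure; from ND.ZGP; compare `helper43/ND/ZGD.lean`). `z` central in the `p`-group `D` of the class `KY`. Proof: `Z₀` the central subgroup of `KY`, `|D : Z₀| = p ^ b`, `b ≤ a` (`a = m.a`, `s = m.s`), so `u ^ p ^ a ∈ Z₀` for `u ∈ D` (`Subgroup.pow_index_mem`, `Z₀` is normal in `D`). `V = {v ^ p ^ (s - a) | v ∈ Z₀}` is a subgroup of the commutative group `Z₀` with `(Om p (s - a) Z₀).ncard = p ^ 1` elements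
of order dividing `p`: so `V` is CYCLIC (finite commutative `p`-group with at most `p` solutions of `y ^ p = 1`: `isCyclic_of_card_pow_eq_one_le`, or by induction: at most `p ^ i` solutions of `y ^ p ^ i = 1`). (A) `u ^ p ^ s = (u ^ p ^ a) ^ p ^ (s - a) ∈ V` for all `u ∈ D`. (B) `V` has exponent dividing `p ^ (e - (s - a))` (`z ^ p ^ e = 1` for `z ∈ Z₀`). (1) `w ∈ D` of order `p ^ e`:
`w ^ p ^ s ∈ V` by (A), and `Zg p e a w = zpowers (w ^ p ^ (e - (a + 3))) ≤ V` (`s ≤ e - (a + 3)`) has order `p ^ (a + 3)` (ZGP (3)); the same for `z`; subgroups of the same order of the cyclic group `V` are equal (ZGP (8) for `P`, `Q ≤ V = zpowers g`). (2) `u ^ p ^ (e - 3) = (u ^ p ^ s) ^ p ^ (e - 3 - s)`, `y = u ^ p ^ s ∈ V`, so `y ^ p ^ (e - 3 - s)` has order dividing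
`p ^ (e - (s - a) - (e - 3 - s)) = p ^ (a + 3)` (B), and an element `y'` of the cyclic group `V` with `y' ^ p ^ (a + 3) = 1` is in the subgroup `Zg z` of `V` of order `p ^ (a + 3)`. (3) as in ND: `|D : Z(D)| = p ^ i` divides `p ^ b`, `i ≤ a ≤ e - 3`; `MonoidHom.transferCenterPow`: `u ↦ u ^ p ^ i` is multiplicative with commutative image. (4) `y = u ^ p ^ s ∈ V`. If `orderOf y ≥ p ^ (a + 3)` then
`zpowers y` contains the subgroup of `V` of order `p ^ (a + 3)`, which is `Zg z`, so `Zg z ≤ zpowers u`. So `y ^ p ^ (a + 2) = 1`, `u ^ p ^ (s + a + 2) = 1`, and `s + a + 2 ≤ e - 3`. -/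
def ZGD_stmt : Prop :=
  ∀ (p e : ℕ) (m : Pm), p.Prime → 2 * m.a + 5 ≤ e → ∀ (G : Type) [Group G] [Finite G] (D : Subgroup G), IsPGroup p D → KY p e m D →
    ∀ z ∈ D, (∀ d ∈ D, z * d = d * z) → orderOf z = p ^ e →
    (∀ w ∈ D, orderOf w = p ^ e → Zg p e m.a w = Zg p e m.a z) ∧ (∀ u ∈ D, u ^ p ^ (e - 3) ∈ Zg p e m.a z) ∧
    (∀ u ∈ D, ∀ v ∈ D, (u * v) ^ p ^ (e - 3) = u ^ p ^ (e - 3) * v ^ p ^ (e - 3)) ∧
    ∀ u ∈ D, ¬ Zg p e m.a z ≤ Subgroup.zpowers u → u ^ p ^ (e - 3) = 1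

/-! ## 2. Unit classes -/

/-- **NUB** (short; from NAB.NUB, ZB.ZUB, YE1, TRN). TRICK for NUB, NUD, NUH: a unit class of NY is a unit class of NAB for a large `m'`: `cd` holds for `m' = pp p (Cz L (z x))` (`n ≤ p ^ n ≤ p ^ (e + n)`, `Nat.lt_pow_self`). All fields except `df` by NAB.NUB. `df`: ZUB (1), (2), (3) for the defect group, YE1 (3). -/
def NUB_stmt : Prop :=
  ∀ (p e : ℕ) (m : Pm) (M : Ideal (integralClosure ℤ ℂ)), Setup p M → ∀ (G : Type) [Group G] [Finite G] (L : Subgroup G) (ψ : G → ℂ) (z x : G),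
    Ucl p e m M L ψ z x → (∀ ψ' : G → ℂ, SB M L ψ ψ' → Ucl p e m M L ψ' z x) ∧
    (∀ g : G, Ucl p e m M (cjS g L) (cjF g ψ) (g * z * g⁻¹) (g * x * g⁻¹)) ∧
    ∀ l ∈ L, Ucl p e m M L ψ (l * z * l⁻¹) (l * x * l⁻¹)

/-- **NUD** (short; from NAB.NUC, DUN, DEX, ZUB, YE1). Proof: `df`: `(D₀, y₀)`, `KY D₀`. DUN (1): every defect group is `cjS h D₀`, so in `KY` (YE1 (3)). First item: NUC (`PEl p z`, `PReg p x`). Second item: `(D₀, y₀)`, `l` from the first item, `D = cjS l⁻¹ D₀`, ZUB (3) for `l⁻¹`. -/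
def NUD_stmt : Prop :=
  ∀ (p e : ℕ) (m : Pm) (M : Ideal (integralClosure ℤ ℂ)), Setup p M → ∀ (G : Type) [Group G] [Finite G] (L : Subgroup G),
    ∀ ψ ∈ IrrOn L, ∀ z x : G, Ucl p e m M L ψ z x →
    (∀ (D : Subgroup G) (y : G), DefL p M L ψ D y → KY p e m D ∧
      ∃ l ∈ L, l * z * l⁻¹ ∈ D ∧ ∀ d ∈ D, l * z * l⁻¹ * d = d * (l * z * l⁻¹)) ∧
    ∃ (D : Subgroup G) (y : G), DefL p M L ψ D y ∧ z ∈ D ∧ (∀ d ∈ D, z * d = d * z) ∧ KY p e m D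

/-- **NUH** (short; from NAB.NUH, ZB.ZHE, DEX, NUD, YE1). Heredity for LOCAL subgroups. Proof: the fields except `df` by NAB.NUH (trick of NUB). `df`: DEX: `DefL p M K η Q y`; `(D, x)` the defect group of `ψ` in `KY`; ZHE: `l ∈ L`, `cjS l Q ≤ D`, `D ⊓ cz (cjS l Q) ≤ cjS l Q`; YE1 (2): `KY (cjS l Q)`, YE1 (3) for `l⁻¹`: `KY Q`. -/
def NUH_stmt : Prop :=
  ∀ (p e : ℕ) (m : Pm) (M : Ideal (integralClosure ℤ ℂ)), Setup p M → ∀ (G : Type) [Group G] [Finite G] (L K : Subgroup G), K ≤ L →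
    ∀ η ∈ IrrOn K, ∀ ψ ∈ IrrOn L, ∀ (z x : G), SB M L η ψ → Ucl p e m M L ψ z x →
    (∀ (Q : Subgroup G) (y : G), DefL p M K η Q y → L ⊓ cz Q ≤ K) →
    ∃ l ∈ L, Ucl p e m M K η (l * z * l⁻¹) (l * x * l⁻¹)

/-- **NLQ** (short; from CNTL, SYL). The subgroups `L ≥ cz Z` are local. Proof: `Z ≤ cz Z ≤ L`, `L ⊓ cz Z = cz Z`; CNTL (`L := L`, `R := Z`, `η := θ`): `l ∈ L` with `l Z l⁻¹ ≤ Q`; so for `c ∈ cz Q`: `c` commutes with `l Z l⁻¹`, `l⁻¹ c l ∈ cz Z ≤ L`, `c ∈ L`. If `L = cz Z` then `c ∈ cz Z`: it is the case `L = cz Z` of the statement (`θ = ψ`, `SB.refl`). -/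
def NLQ_stmt : Prop :=
  ∀ (p : ℕ) (M : Ideal (integralClosure ℤ ℂ)), Setup p M → ∀ (G : Type) [Group G] [Finite G] (L Z : Subgroup G), IsPGroup p Z → Z ≤ cz Z →
    cz Z ≤ L → ∀ θ ∈ IrrOn (cz Z), ∀ ψ ∈ IrrOn L, SB M L θ ψ → ∀ (Q : Subgroup G) (y : G), DefL p M L ψ Q y → cz Q ≤ L

/-- **NUE** (short; from NUD, DUN, YE1, ZB.ZE2, NEG). Two unit classes of the same block have conjugate groups `E`. Proof: NUD (second item): `z ∈ D`, `z' ∈ D'`, defect groups in `KY`; DUN (1): `D' = cjS k D`; YE1 (4): `Eg z = EQ D`, `Eg z' = EQ D'`; ZE2 (3). -/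
def NUE_stmt : Prop :=
  ∀ (p e : ℕ) (m : Pm) (M : Ideal (integralClosure ℤ ℂ)), Setup p M → ∀ (G : Type) [Group G] [Finite G] (K : Subgroup G),
    ∀ η ∈ IrrOn K, ∀ z x z' x' : G, Ucl p e m M K η z x → Ucl p e m M K η z' x' → ∃ k ∈ K, Eg p e z' = cjS k (Eg p e z)

/-- **NUF** (short to medium; PORT of NAB.NUF, grep `theorem NUF`; from NUE, SBI, DCM, CLS, CCI, SYL, NEG). The unit class goes up from `H = L ⊓ nz E` to `L`; `df` for `L` is a hypothesis. Proof: `Cz L (z x) ≤ nz E` (NEG (4)). `f = cls L (z x) - cls H (z x)` is invariant under `H`. CLAIM: `f w ≠ 0` implies that `cc η (cls H w)` is `InM`. We may assume `w ∈ H` (CLS). `w = l (z x) l⁻¹`, `l ∈ L`. If `cc η (cls H w)` is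
not `InM` then `Ucl p e m M H η (l z l⁻¹) (l x l⁻¹)` (`df`: the one of `η`), so by NUE `cjS l E = Eg (l z l⁻¹) = cjS h E`, `h ∈ H ≤ nz E`: `l ∈ nz E`, `l ∈ H`, and `f w = 0`. By DCM (1) `cc η f` is `InM`, so (CCI (1)) `cc η (cls L (z x))` is not `InM`; SBI for `SB M L η ψ`. -/
def NUF_stmt : Prop :=
  ∀ (p e : ℕ) (m : Pm) (M : Ideal (integralClosure ℤ ℂ)), Setup p M → ∀ (G : Type) [Group G] [Finite G] (L E : Subgroup G),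
    ∀ η ∈ IrrOn (L ⊓ nz E), ∀ z x : G, Ucl p e m M (L ⊓ nz E) η z x → Eg p e z = E → ∀ ψ : G → ℂ, SB M L η ψ →
    (∃ (D : Subgroup G) (y : G), DefL p M L ψ D y ∧ KY p e m D) → Ucl p e m M L ψ z x

/-! ## 3. The rows ported by script from ND -/

/-- **ZNU** (PORT by script of `ND.ZNU`; see `helper37/ND/Spec`). -/
def ZNU_stmt : Prop :=
  ∀ (p e : ℕ) (m : Pm) (M : Ideal (integralClosure ℤ ℂ)), Setup p M → 2 * m.a + 5 ≤ e → ∀ (G : Type) [Group G] [Finite G] (K : Subgroup G),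
    ∀ η ∈ IrrOn K, ∀ z x : G, Ucl p e m M K η z x →
    (∀ z' x' : G, Ucl p e m M K η z' x' → ∃ k ∈ K, Zg p e m.a z' = cjS k (Zg p e m.a z)) ∧
    ∀ (D : Subgroup G) (y : G), DefL p M K η D y → ∀ w ∈ D, orderOf w = p ^ e → ∃ k ∈ K, Zg p e m.a z = cjS k (Zg p e m.a w)

/-- **GBC** (PORT by script of `ND.GBC`; see `helper37/ND/Spec`). -/
def GBC_stmt : Prop :=
  ∀ (p e : ℕ) (m : Pm) (M : Ideal (integralClosure ℤ ℂ)), Setup p M → m.a + 3 ≤ e → ∀ (G : Type) [Group G] [Finite G] (χ : G → ℂ) (L Z : Subgroup G),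
    BC M L (GS p e m M χ L Z) ∧
    (χ ∈ IrrOn (⊤ : Subgroup G) → ∀ z x : G, Ucl p e m M (⊤ : Subgroup G) χ z x → Zg p e m.a z = Z →
      GS p e m M χ (⊤ : Subgroup G) Z = Bl M (⊤ : Subgroup G) χ) ∧
    (∀ n ∈ nz Z, ∀ ψ ∈ GS p e m M χ L Z, cjF n ψ ∈ GS p e m M χ (cjS n L) Z) ∧
    ∀ n ∈ nz Z, ∀ ψ ∈ GS p e m M χ (cz Z) Z, cjF n ψ ∈ GS p e m M χ (cz Z) Z

/-- **GUC** (PORT by script of `ND.GUC`; see `helper37/ND/Spec`). -/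
def GUC_stmt : Prop :=
  ∀ (p e : ℕ) (m : Pm) (t : ℕ) (M : Ideal (integralClosure ℤ ℂ)), Setup p M → ∀ (G : Type) [Group G] [Finite G] (χ : G → ℂ) (Z : Subgroup G) (z x : G),
    ZD p e m t M χ Z z x → ∀ L : Subgroup G, cz Z ≤ L → ∀ θ ∈ GS p e m M χ (cz Z) Z, ∃ ψ ∈ GS p e m M χ L Z, SB M L θ ψ

/-- **GSP** (PORT by script of `ND.GSP`; see `helper37/ND/Spec`). -/
def GSP_stmt : Prop :=
  ∀ (p e : ℕ) (m : Pm) (t : ℕ) (M : Ideal (integralClosure ℤ ℂ)), Setup p M → ∀ (G : Type) [Group G] [Finite G] (χ : G → ℂ) (Z : Subgroup G) (z x : G),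
    ZD p e m t M χ Z z x → ∀ θ ∈ GS p e m M χ (cz Z) Z, ∀ (ν : Z →* ℂˣ) (g : G), ¬ Z ≤ Subgroup.zpowers g → st Z t ν θ g = θ g

/-- **GIM** (PORT by script of `ND.GIM`; see `helper37/ND/Spec`). -/
def GIM_stmt : Prop :=
  ∀ (p e : ℕ) (m : Pm) (t : ℕ) (M : Ideal (integralClosure ℤ ℂ)), Setup p M → ∀ (G : Type) [Group G] [Finite G] (χ : G → ℂ) (Z : Subgroup G) (z x : G),
    ZD p e m t M χ Z z x → ∀ θ ∈ GS p e m M χ (cz Z) Z, ∀ ν : Z →* ℂˣ, ∀ θ' ∈ IrrOn (cz Z), IntAt M (mt (cz Z) (st Z t ν θ) θ')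

/-- **GST** (PORT by script of `ND.GST`; see `helper37/ND/Spec`). -/
def GST_stmt : Prop :=
  ∀ (p e : ℕ) (m : Pm) (t : ℕ) (M : Ideal (integralClosure ℤ ℂ)), Setup p M → ∀ (G : Type) [Group G] [Finite G] (χ : G → ℂ) (Z : Subgroup G) (z x : G),
    ZD p e m t M χ Z z x → ∀ θ ∈ GS p e m M χ (cz Z) Z, ∀ ν : Z →* ℂˣ, st Z t ν θ ∈ GS p e m M χ (cz Z) Z ∧ SB M (cz Z) (st Z t ν θ) θ

/-- **GOS** (PORT by script of `ND.GOS`; see `helper37/ND/Spec`). -/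
def GOS_stmt : Prop :=
  ∀ (p e : ℕ) (m : Pm) (t : ℕ) (M : Ideal (integralClosure ℤ ℂ)), Setup p M → ∀ (G : Type) [Group G] [Finite G] (χ : G → ℂ) (Z : Subgroup G) (z x : G),
    ZD p e m t M χ Z z x → ∀ θ ∈ GS p e m M χ (cz Z) Z, p ^ 3 ≤ Nat.card {θ' : G → ℂ // orb Z t θ θ'} ∧ Finite {θ' : G → ℂ // orb Z t θ θ'} ∧
      ∀ z' x' : G, Ucl p e m M (cz Z) θ z' x' → Zg p e m.a z' = Z → θ (z' * x') ≠ 0 ∧ (z' * x') ^ t = z' ^ p ^ (e - 3)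

/-- **GS4** (PORT by script of `ND.GS4`; see `helper37/ND/Spec`). -/
def GS4_stmt : Prop :=
  ∀ (p e : ℕ) (m : Pm) (t : ℕ) (M : Ideal (integralClosure ℤ ℂ)), Setup p M → ∀ (G : Type) [Group G] [Finite G] (χ : G → ℂ) (Z : Subgroup G) (z x : G),
    ZD p e m t M χ Z z x → ∀ θ ∈ GS p e m M χ (cz Z) Z, ∀ n ∈ nz Z, SB M (cz Z) (cjF n θ) θ → ∀ k : ℕ, n ^ p ^ k ∈ cz Z → n ∈ cz Z

/-- **GFX** (PORT by script of `ND.GFX`; see `helper37/ND/Spec`). -/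
def GFX_stmt : Prop :=
  ∀ (p e : ℕ) (m : Pm) (t : ℕ) (M : Ideal (integralClosure ℤ ℂ)), Setup p M → ∀ (G : Type) [Group G] [Finite G] (χ : G → ℂ) (Z : Subgroup G) (z x : G),
    ZD p e m t M χ Z z x → ∀ θ ∈ GS p e m M χ (cz Z) Z, ∀ A : Subgroup G, A ≤ nz Z → cz Z ≤ A → (∀ a ∈ A, orb Z t θ (cjF a θ)) →
    (∃ y : G → ℂ, orb Z t θ y ∧ (∀ a ∈ A, cjF a y = y) ∧ ∀ a ∈ A, ∀ y' : G → ℂ, orb Z t θ y' → y' ≠ y → cjF a y' = y' → a ∈ cz Z) ∧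
    Nat.card A ≤ (p - 1) * Nat.card (cz Z) ∧ (A ≤ cz (Eg p e z) → A ≤ cz Z)

/-- **GAC** (PORT by script of `ND.GAC`; see `helper37/ND/Spec`). -/
def GAC_stmt : Prop :=
  ∀ (p e : ℕ) (m : Pm) (t : ℕ) (M : Ideal (integralClosure ℤ ℂ)), Setup p M → ∀ (G : Type) [Group G] [Finite G] (χ : G → ℂ) (Z : Subgroup G) (z x : G),
    ZD p e m t M χ Z z x → ∀ A₀ : Subgroup G, A₀ ≤ nz Z → cz Z ≤ A₀ →
    ∃ act : A₀ → XX p e m M χ Z → XX p e m M χ Z, (∀ a θ, (act a θ : G → ℂ) = cjF (a : G) (θ : G → ℂ)) ∧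
      Acn ((cz Z).subgroupOf A₀) act (fun θ θ' => orb Z t (θ : G → ℂ) (θ' : G → ℂ)) (p - 1) ∧
      (A₀ ≤ cz (Eg p e z) → Acn ((cz Z).subgroupOf A₀) act (fun θ θ' => orb Z t (θ : G → ℂ) (θ' : G → ℂ)) 1 ∧
        ∀ (θ : XX p e m M χ Z) (a : A₀), orb Z t (θ : G → ℂ) (act a θ : G → ℂ) → a ∈ (cz Z).subgroupOf A₀)

open Classical in
/-- **GGR** (PORT by script of `ND.GGR`; see `helper37/ND/Spec`). -/
def GGR_stmt : Prop :=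
  ∀ (p e : ℕ) (m : Pm) (t : ℕ) (M : Ideal (integralClosure ℤ ℂ)), Setup p M → ∀ (G : Type) [Group G] [Finite G] (χ : G → ℂ) (Z : Subgroup G) (z x : G),
    ZD p e m t M χ Z z x → ∀ L : Subgroup G, cz Z ≤ L → ∀ T : Set (G → ℂ), BC M L T →
    ∀ θ₁ ∈ GS p e m M χ (cz Z) Z, ∀ θ₁' : G → ℂ, orb Z t θ₁ θ₁' → ∀ θ₂ ∈ GS p e m M χ (cz Z) Z, ∀ θ₂' : G → ℂ, orb Z t θ₂ θ₂' →
    ((∃ ψ ∈ T, SB M L θ₂ ψ) → (Nat.card (cz Z) : ℂ) * ∑ᶠ ψ ∈ T, (mt (cz Z) ψ θ₁ - mt (cz Z) ψ θ₁') * (mt (cz Z) ψ θ₂ - mt (cz Z) ψ θ₂') =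
      ∑ᶠ s ∈ ((nz Z ⊓ L : Subgroup G) : Set G), ((if cjF s θ₂ = θ₁ then (1 : ℂ) else 0) - (if cjF s θ₂ = θ₁' then 1 else 0) -
        (if cjF s θ₂' = θ₁ then 1 else 0) + (if cjF s θ₂' = θ₁' then 1 else 0))) ∧
    (¬ (∃ ψ ∈ T, SB M L θ₂ ψ) → ∑ᶠ ψ ∈ T, (mt (cz Z) ψ θ₁ - mt (cz Z) ψ θ₁') * (mt (cz Z) ψ θ₂ - mt (cz Z) ψ θ₂') = 0)

/-- **GOU** (PORT by script of `ND.GOU`; see `helper37/ND/Spec`). -/
def GOU_stmt : Prop :=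
  ∀ (p e : ℕ) (m : Pm) (t : ℕ) (M : Ideal (integralClosure ℤ ℂ)), Setup p M → ∀ (G : Type) [Group G] [Finite G] (χ : G → ℂ) (Z : Subgroup G) (z x : G),
    ZD p e m t M χ Z z x → ∀ L : Subgroup G, cz Z ≤ L → ∀ ψ ∈ IrrOn L, ψ ∉ GS p e m M χ L Z →
    ∀ θ ∈ GS p e m M χ (cz Z) Z, ∀ θ' : G → ℂ, orb Z t θ θ' → mt (cz Z) ψ θ = mt (cz Z) ψ θ'

open Classical in
/-- **GSY** (PORT by script of `ND.GSY`; see `helper37/ND/Spec`). -/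
def GSY_stmt : Prop :=
  ∀ (p e : ℕ) (m : Pm) (t : ℕ) (M : Ideal (integralClosure ℤ ℂ)), Setup p M → ∀ (G : Type) [Group G] [Finite G] (χ : G → ℂ) (Z : Subgroup G) (z x : G),
    ZD p e m t M χ Z z x → ∀ L A₀ : Subgroup G, cz Z ≤ L → A₀ = nz Z ⊓ L → ∀ act : A₀ → XX p e m M χ Z → XX p e m M χ Z,
    (∀ a θ, (act a θ : G → ℂ) = cjF (a : G) (θ : G → ℂ)) →
    ∃ (w : PP p e m M χ L Z → ℤ) (D : PP p e m M χ L Z → XX p e m M χ Z → XX p e m M χ Z → ℤ),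
      (∀ ψ θ θ', ((D ψ θ θ' : ℤ) : ℂ) = if orb Z t (θ : G → ℂ) (θ' : G → ℂ) then mt (cz Z) (ψ : G → ℂ) (θ : G → ℂ) - mt (cz Z) (ψ : G → ℂ) (θ' : G → ℂ) else 0) ∧
      Sys ((cz Z).subgroupOf A₀) act (fun θ θ' => orb Z t (θ : G → ℂ) (θ' : G → ℂ)) w D

/-- **GVF** (PORT by script of `ND.GVF`; see `helper37/ND/Spec`). -/
def GVF_stmt : Prop :=
  ∀ (p e : ℕ) (m : Pm) (t : ℕ) (M : Ideal (integralClosure ℤ ℂ)), Setup p M → ∀ (G : Type) [Group G] [Finite G] (χ : G → ℂ) (Z : Subgroup G) (z x : G),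
    ZD p e m t M χ Z z x → ∀ L : Subgroup G, cz Z ≤ L → ∀ ψ ∈ GS p e m M χ L Z,
    ψ (z * x) = - ((Nat.card (Z →* ℂˣ) : ℂ)⁻¹ * ∑ᶠ θ ∈ GS p e m M χ (cz Z) Z, ∑ᶠ ν : Z →* ℂˣ,
      θ (z * x) * lam Z t ν (z * x) * (mt (cz Z) ψ θ - mt (cz Z) ψ (st Z t ν θ)))

/-- **GNV** (PORT by script of `ND.GNV`; see `helper37/ND/Spec`). -/
def GNV_stmt : Prop :=
  ∀ (p e : ℕ) (m : Pm) (t : ℕ) (M : Ideal (integralClosure ℤ ℂ)), Setup p M → ∀ (G : Type) [Group G] [Finite G] (χ : G → ℂ) (Z : Subgroup G) (z x : G),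
    ZD p e m t M χ Z z x → ∀ L : Subgroup G, cz Z ≤ L → ∀ ψ ∈ GS p e m M χ L Z, Ucl p e m M L ψ z x →
    ∃ θ ∈ GS p e m M χ (cz Z) Z, ∃ θ' ∈ GS p e m M χ (cz Z) Z, orb Z t θ θ' ∧ mt (cz Z) ψ θ ≠ mt (cz Z) ψ θ'

/-- **GDF** (PORT by script of `ND.GDF`; see `helper37/ND/Spec`). -/
def GDF_stmt : Prop :=
  ∀ (p e : ℕ) (m : Pm) (M : Ideal (integralClosure ℤ ℂ)), Setup p M → ∀ (G : Type) [Group G] [Finite G] (L : Subgroup G), ∀ ψ ∈ IrrOn L,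
    ∀ z x : G, Ucl p e m M L ψ z x → Subgroup.centralizer ({z * x} : Set G) ≤ L → ∀ d : ℤ,
    (Defect p L ψ d ↔ UM M ((p : ℂ) ^ (d - (padicValNat p (Nat.card (Subgroup.centralizer ({z * x} : Set G))) : ℤ)) * ψ (z * x)))

open Classical in
/-- **GC1** (PORT by script of `ND.GC1`; see `helper37/ND/Spec`). -/
def GC1_stmt : Prop :=
  ∀ (p e : ℕ) (m : Pm) (t : ℕ) (M : Ideal (integralClosure ℤ ℂ)), Setup p M → ∀ (G : Type) [Group G] [Finite G] (χ : G → ℂ) (Z : Subgroup G) (z x : G),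
    ZD p e m t M χ Z z x → ∃ (ξ : (G → ℂ) → (G → ℂ)) (ε : (G → ℂ) → ℂ),
      (∀ θ ∈ GS p e m M χ (cz Z) Z, ξ θ ∈ GS p e m M χ (cz (Eg p e z)) Z ∧ (ε θ = 1 ∨ ε θ = -1)) ∧
      (∀ ψ ∈ GS p e m M χ (cz (Eg p e z)) Z, ∀ θ ∈ GS p e m M χ (cz Z) Z, ∀ θ' ∈ GS p e m M χ (cz Z) Z, orb Z t θ θ' →
        mt (cz Z) ψ θ - mt (cz Z) ψ θ' = ε θ * ((if ψ = ξ θ then 1 else 0) - (if ψ = ξ θ' then 1 else 0))) ∧
      ∀ θ ∈ GS p e m M χ (cz Z) Z, ∀ θ' ∈ GS p e m M χ (cz Z) Z, ξ θ = ξ θ' → ∃ a ∈ nz Z ⊓ cz (Eg p e z), θ' = cjF a θ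

open Classical in
/-- **GEV** (PORT by script of `ND.GEV`; see `helper37/ND/Spec`). -/
def GEV_stmt : Prop :=
  ∀ (p e : ℕ) (m : Pm) (t : ℕ) (M : Ideal (integralClosure ℤ ℂ)), Setup p M → ∀ (G : Type) [Group G] [Finite G] (χ : G → ℂ) (Z : Subgroup G) (z x : G),
    ZD p e m t M χ Z z x → ∀ (ξ : (G → ℂ) → (G → ℂ)) (ε : (G → ℂ) → ℂ),
      (∀ θ ∈ GS p e m M χ (cz Z) Z, ξ θ ∈ GS p e m M χ (cz (Eg p e z)) Z ∧ (ε θ = 1 ∨ ε θ = -1)) →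
      (∀ ψ ∈ GS p e m M χ (cz (Eg p e z)) Z, ∀ θ ∈ GS p e m M χ (cz Z) Z, ∀ θ' ∈ GS p e m M χ (cz Z) Z, orb Z t θ θ' →
        mt (cz Z) ψ θ - mt (cz Z) ψ θ' = ε θ * ((if ψ = ξ θ then 1 else 0) - (if ψ = ξ θ' then 1 else 0))) →
      (∀ θ ∈ GS p e m M χ (cz Z) Z, ∀ θ' ∈ GS p e m M χ (cz Z) Z, ξ θ = ξ θ' → ∃ a ∈ nz Z ⊓ cz (Eg p e z), θ' = cjF a θ) →
      ∀ h ∈ nz Z, ∀ θ ∈ GS p e m M χ (cz Z) Z, ξ (cjF h θ) = cjF h (ξ θ)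

/-- **GQQ** (PORT by script of `ND.GQQ`; see `helper37/ND/Spec`). -/
def GQQ_stmt : Prop :=
  ∀ (p e : ℕ) (m : Pm) (t : ℕ) (M : Ideal (integralClosure ℤ ℂ)), Setup p M → ∀ (G : Type) [Group G] [Finite G] (χ : G → ℂ) (Z : Subgroup G) (z x : G),
    ZD p e m t M χ Z z x → ∀ η ∈ GS p e m M χ (nz (Eg p e z)) Z, ∀ θ₁ ∈ GS p e m M χ (cz Z) Z, ∀ θ₁' ∈ GS p e m M χ (cz Z) Z, orb Z t θ₁ θ₁' →
    (mt (cz Z) η θ₁ - mt (cz Z) η θ₁' = 0 ∨ mt (cz Z) η θ₁ - mt (cz Z) η θ₁' = 1 ∨ mt (cz Z) η θ₁ - mt (cz Z) η θ₁' = -1) ∧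
    ∀ θ₂ ∈ GS p e m M χ (cz Z) Z, ∀ θ₂' ∈ GS p e m M χ (cz Z) Z, orb Z t θ₂ θ₂' → mt (cz Z) η θ₁ ≠ mt (cz Z) η θ₁' →
      mt (cz Z) η θ₂ ≠ mt (cz Z) η θ₂' → ∃ h ∈ nz Z, orb Z t (cjF h θ₁) θ₂

/-! ## 4. Block T: sums over `E'` (general `k`; ports from ND and ZB) -/

/-- **GKQ** (short to medium; from EXB, TRN, CNTL, DEX, DGL, ZB.ZUH, ZB.ZE1, ZB.ZQU, SYL; compare `helper8/ND/GKQ.lean`). `N = nz E'`, `K = Cz N y = N ⊓ cz (zpowers y)` (SYL). (0) If `DefL p M K η Q w` then `y ∈ Q`: CNTL (`L := K`, `R := zpowers y`, `K ⊓ cz (zpowers y) = K`, `η = ψ`): `k (zpowers y) k⁻¹ ≤ Q`, and `k ∈ K` commutes with `y`. So `N ⊓ cz Q ≤ K` (`w` commutes with `y`).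
(1) `⊆`: `η ∈ IrrOn K`, `SB M N η φ`, `φ ∈ BQ` with `(Q₁, y₁)`, `EQ Q₁ = E'`: `SB M ⊤ η χ` (TRN); DEX: `(Q, w)`; ZUH (`L = N`): `KZ Q`, `E' = cjS l (EQ Q)`, `l ∈ N`, so `EQ Q = E'`. (2) `η ∈ BQ .. K E' χ` with `(Q, w)`. EXB for `N`, `zpowers y`: `φ' ∈ IrrOn N`, `SB M N η φ'`; `SB M ⊤ φ' χ` (TRN). DEX: `DefL p M N φ' Q' w'`. DGL for `K`, `η`, `Q`: `θ ∈ IrrOn (K ⊓ cz Q)`, `SB M K θ η`;
`K ⊓ cz Q = N ⊓ cz Q` by (0), `SB M N θ φ'` (TRN); CNTL (`L := N`, `R := Q`): `n Q n⁻¹ ≤ Q'`, `n ∈ N`, so `E' = cjS n E' ≤ Q'` (ZE1: `E' = EQ Q ≤ Q`), `cz Q' ≤ cz E' ≤ nz E' = N`. ZUH (`L = ⊤`, `K := N`, `η := φ'`): `KZ Q'`; ZUH (`L = N`, `K`, `η`): `EQ Q' = cjS n' (EQ Q) = cjS n' E' = E'`. So `φ' ∈ BQ .. N E' χ`. (1) `⊇`: (2) and ZQU (`L = ⊤`, `⊤ ⊓ nz E' = nz E'`): `φ'` and `φ` are in the same block.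
(3) `E' = EQ Q ≤ Q ≤ Cz ⊤ y` (ZE1, `DefL.le`), so `y ∈ cz E' ≤ nz E'` (`cz E' ≤ nz E'` always). -/
def GKQ_stmt : Prop :=
  ∀ (p : ℕ) (κ : Pm) (M : Ideal (integralClosure ℤ ℂ)), Setup p M → ∀ (G : Type) [Group G] [Finite G],
    ∀ χ ∈ Irr G, ∀ (D : Subgroup G) (x : G), DefL p M (⊤ : Subgroup G) χ D x → KZ p κ D → ∀ (E' : Subgroup G) (y : G), PEl p y →
    (y ∈ nz E' → ∀ φ ∈ BQ p κ M (⊤ : Subgroup G) (nz E') E' χ,
      Bq M (nz E') (Cz (nz E') y) φ = BQ p κ M (⊤ : Subgroup G) (Cz (nz E') y) E' χ) ∧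
    (y ∈ nz E' → ∀ η ∈ BQ p κ M (⊤ : Subgroup G) (Cz (nz E') y) E' χ, ∃ φ ∈ BQ p κ M (⊤ : Subgroup G) (nz E') E' χ, SB M (nz E') η φ) ∧
    ∀ η ∈ BQ p κ M (⊤ : Subgroup G) (Cz (⊤ : Subgroup G) y ⊓ nz E') E' χ, y ∈ nz E'

/-- **TDC** (short; PORT of `helper97/ND/TDC.lean` with `helper78/ZB/ZTC.lean`; from ZB.ZUH, ZB.ZE1, ZB.ZUB, ZB.ZE2, CJG). Sum over all `E'` with an arbitrary weight `W` which is invariant under conjugation. -/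
def TDC_stmt : Prop :=
  ∀ (p : ℕ) (κ : Pm) (M : Ideal (integralClosure ℤ ℂ)), Setup p M → ∀ (G : Type) [Group G] [Finite G] (L : Subgroup G),
    ∀ ψ ∈ IrrOn L, ∀ (D : Subgroup G) (x : G), DefL p M L ψ D x → KZ p κ D →
    ∀ W : Subgroup G → (G → ℂ) → ℂ, (∀ l ∈ L, ∀ K η, W (cjS l K) (cjF l η) = W K η) →
    ∑ᶠ E' : Subgroup G, (Nat.card (L ⊓ nz E' : Subgroup G) : ℂ) * ∑ᶠ η ∈ BQ p κ M L (L ⊓ nz E') E' ψ, W (L ⊓ nz E') η =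
      (Nat.card L : ℂ) * ∑ᶠ η ∈ BQ p κ M L (L ⊓ nz (EQ p κ.s D)) (EQ p κ.s D) ψ, W (L ⊓ nz (EQ p κ.s D)) η

/-- **GKE** (short to medium; PORT of `helper97/ND/GKE.lean`; from GKN, GKQ, ZB.ZLC, ZB.ZQU, TDC, CNTL, SYL, TPR, B2). `k(B) = k(BE)`. Proof: as in ND; ZLC for `N = Cz ⊤ y`: its locality hypothesis: `φ ∈ IrrOn N`, `DefL p M N φ Q w`: CNTL (`L := N`, `R := zpowers y`, `N ⊓ cz (zpowers y) = N`): `y ∈ Q` (`k ∈ N` commutes with `y`), so `cz Q ≤ Cz ⊤ y`. -/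
def GKE_stmt : Prop :=
  ∀ (p : ℕ) (κ : Pm) (M : Ideal (integralClosure ℤ ℂ)), Setup p M → ∀ (G : Type) [Group G] [Finite G],
    ∀ χ ∈ Irr G, ∀ (D : Subgroup G) (x : G), DefL p M (⊤ : Subgroup G) χ D x → KZ p κ D → (∀ N : Subgroup G, MZc p κ M N) →
    (Bl M (⊤ : Subgroup G) χ).ncard = (BQ p κ M (⊤ : Subgroup G) (nz (EQ p κ.s D)) (EQ p κ.s D) χ).ncard

/-- The claim for the group `G`: the numbers of characters of defect `d` agree. -/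
def DZc (p : ℕ) (κ : Pm) (M : Ideal (integralClosure ℤ ℂ)) (d : ℤ) (G : Type) [Group G] : Prop :=
  ∀ χ ∈ Irr G, ∀ (D : Subgroup G) (x : G), DefL p M (⊤ : Subgroup G) χ D x → KZ p κ D →
    {ψ : G → ℂ | ψ ∈ Bl M (⊤ : Subgroup G) χ ∧ Defect p (⊤ : Subgroup G) ψ d}.ncard =
      {η : G → ℂ | η ∈ BQ p κ M (⊤ : Subgroup G) (nz (EQ p κ.s D)) (EQ p κ.s D) χ ∧ Defect p (nz (EQ p κ.s D)) η d}.ncard

/-- **GKD** (medium; PORT of `helper97/ND/GKD.lean`; from KCO, GAC, GSY, GVF, GNV, GDF, GQQ, GKE, GST, GBC, ZXU, ZQU, ZQD, ZHE (of ZB), NUF, NUD, NUB, NDG, YE1, ZE1, ZE2, ZGP, TEX, TPR, B2). THE MAIN THEOREM. Proof: `(D, x₀)` given, `E = EQ D`, `N₁ = nz E`. YE1 (6): `KY p e κ D`. ZXU (`L = ⊤`): `η₀ ∈ BQ p κ M ⊤ N₁ E χ` (`⊤ ⊓ nz E = nz E`) with `(Q, x)`, `KZ Q`, `EQ Q = E`.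
`Q` is conjugate to `D`: ZHE (`⊤ ⊓ cz Q ≤ N₁`: ZE1 (4)) gives `l` with `cjS l Q ≤ D`; ZQD: `|Q| = |D|`, its hypothesis as in ZQU (`cjS l Q ≤ D`: `cjS l E = EQ (cjS l Q) = EQ D` (ZE2), `D ≤ cz (EQ D)`, so `cjS l⁻¹ D ≤ cz E ≤ N₁`): `cjS l Q = D`, so `KY Q` (YE1 (3)). YE1 (5): `z ∈ Q` central in `Q`, `orderOf z = p ^ e`; `Eg p e z = E` (YE1 (4)). NDG for `N₁`, `η₀`: `cc η₀ (cls N₁ (z x))` is not `InM`, so
`Ucl p e κ M N₁ η₀ z x` (`x` commutes with `Q`, `PReg`: fields of `DefL`). NUF (`L = ⊤`): `Ucl p e κ M ⊤ χ z x`. From here as in ND with `m = κ`: `Z = Zg p e κ.a z`, `t` from TEX, `ZD p e κ t M χ Z z x`; `GS ⊤ = Bl M ⊤ χ`; `GS N₁ = BQ .. N₁ E χ = Bl M N₁ η₀` (ZQU): `⊇` NUB (1); `⊆`: `ψ ∈ GS N₁` with `(z', x')`, `Zg z' = Z`: `Eg z' = Eg z = E` (ZGP (4)); NUD: `z' ∈ D'`, `DefL p M N₁ ψ D' _`, `KY D'`, so `EQ D' = Eg z' = E`.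
GKE for the numbers. -/
def GKD_stmt : Prop :=
  ∀ (p : ℕ) (κ : Pm) (M : Ideal (integralClosure ℤ ℂ)), Setup p M → κ.k = 1 → κ.a + 4 ≤ κ.w → ∀ (G : Type) [Group G] [Finite G],
    (∀ N : Subgroup G, MZc p κ M N) → ∀ d : ℤ, DZc p κ M d G

open Classical in
/-- **TDI** (short to medium; COPY `helper97/ND/TDI.lean` and ZTI, `helper92/ZB/ZTI.lean`; from ZB.ZTK, ZB.ZE1, TR1, TR2, TR3, TPR, B2). The claim for the type `N` in terms of functions on `G`. -/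
def TDI_stmt : Prop :=
  ∀ (p : ℕ) (κ : Pm) (M : Ideal (integralClosure ℤ ℂ)), Setup p M → ∀ (G : Type) [Group G] [Finite G] (N : Subgroup G) (d : ℤ), DZc p κ M d N →
    ∀ φ ∈ IrrOn N, ∀ (Q : Subgroup G) (y : G), DefL p M N φ Q y → KZ p κ Q →
    ∑ᶠ ψ ∈ Bl M N φ, (if Defect p N ψ d then (1 : ℂ) else 0) =
      ∑ᶠ η ∈ BQ p κ M N (N ⊓ nz (EQ p κ.s Q)) (EQ p κ.s Q) φ, (if Defect p (N ⊓ nz (EQ p κ.s Q)) η d then (1 : ℂ) else 0)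

open Classical in
/-- **TDL** (medium; COPY `helper97/ND/TDL.lean` and ZLC, `helper24/ZB/ZLC.lean`; from `Pool.Agent.NAB.XPB_stmt`, TDI, TDC, ZB.ZUH, ZB.ZUX, ZB.ZE1, DEX, TRN, TPR, B2). The characters of defect `d` of the LOCAL subgroup `N`. -/
def TDL_stmt : Prop :=
  ∀ (p : ℕ) (κ : Pm) (M : Ideal (integralClosure ℤ ℂ)), Setup p M → ∀ (G : Type) [Group G] [Finite G],
    ∀ χ ∈ Irr G, ∀ (D : Subgroup G) (x : G), DefL p M (⊤ : Subgroup G) χ D x → KZ p κ D → ∀ (N : Subgroup G) (d : ℤ), DZc p κ M d N →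
    (∀ φ ∈ IrrOn N, ∀ (Q : Subgroup G) (y : G), DefL p M N φ Q y → cz Q ≤ N) →
    (Nat.card N : ℂ) * ((BlkD p M χ N d).ncard : ℂ) = ∑ᶠ E' : Subgroup G, (Nat.card (N ⊓ nz E' : Subgroup G) : ℂ) *
      ∑ᶠ η ∈ BQ p κ M (⊤ : Subgroup G) (N ⊓ nz E') E' χ, (if Defect p (N ⊓ nz E') η d then (1 : ℂ) else 0)

/-- **TDF** (short to medium; from TDL, ZB.ZTL, ZB.ZTP, NTG, FT0, FNO, ZB.ZE1, B2; compare `helper97/ND/TDF.lean` and ZTM, `helper24/ZB/ZTM.lean`). The alternating sum for `d` is zero. Proof: FT0: `|G| * altSum` is the sum over the NORMAL chains `NCh p ⊤ ⊥ C` of `(-1) ^ (|C| + 1) |nrm C| |BlkD (nrm C) d|`. TDL for `N = nrm C` (local: ZTL; it holds for ALL normal chains, also `C = {⊥}`): it is the sum over `E'` of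
`g_{E'} (nrm C ⊓ nz E')`, `g_{E'} K = if E' ≤ K then |K| * |{η ∈ BQ p κ M ⊤ K E' χ | Defect p K η d}| else 0` (an INTEGER; if `E'` is not contained in `K = nrm C ⊓ nz E'` then `BQ` is empty: ZE1, `E' ≤ Q ≤ K`). Exchange. Fix `E'`. If `g_{E'} (nrm C ⊓ nz E') ≠ 0` for some normal chain `C` then (ZTP) `E' = cjS g (EQ D)`, so `E'` is a `p`-group and `¬ E' ≤ ⊥` (ZE1 (2)). Then
FNO (`L = ⊤`, `P = ⊥`, `N = nz E'`): the sum over the normal chains is the sum over all chains `PCh p ⊤ ⊥ C`, which is `0` by NTG (`R = ⊥`, `F K = g_{E'} K` as a complex number; the terms with `¬ E' ≤ nrm C` are `0`). -/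
def TDF_stmt : Prop :=
  ∀ (p : ℕ) (κ : Pm) (M : Ideal (integralClosure ℤ ℂ)), Setup p M → ∀ (G : Type) [Group G] [Finite G],
    ∀ χ ∈ Irr G, ∀ (D : Subgroup G) (x : G), DefL p M (⊤ : Subgroup G) χ D x → KZ p κ D → IsOp p (⊤ : Subgroup G) ⊥ → ∀ d : ℤ,
    (∀ N : Subgroup G, DZc p κ M d N) → altSum (trivE G) p M χ d ⊤ = 0

/-- **NDQ** (short; from TDF, GKD, ZB.ZMN, CLS, TPR, B2; COPY the proof of ZFD, `helper7/ZB/ZFD.lean`). THE FINAL STATEMENT in terms of the defect group. Proof: `DefectGroup p M χ D` gives `DefL p M ⊤ χ D x` and `IsPGroup p D`. `κ = ⟨a, r, s, w, 1⟩`: `KZ p κ D` for the given `Z`: `(Om p (s - a) Z).ncard ≤ p` by hypothesis; the element `z ^ p ^ (s + w) ≠ 1` has a power of order `p` in `Om p (s + w) Z`, so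
`p ≤ (Om p (s + w) Z).ncard` (the powers of this element), and `Om p (s + w) Z ⊆ Om p (s - a) Z`: both have `p = p ^ 1` elements. ZMN (BDK): `MZc` for all groups; GKD for the types `N` (whose subgroups are again types); TDF. -/
def NDQ_stmt : Prop :=
  ∀ (p : ℕ) (M : Ideal (integralClosure ℤ ℂ)), Setup p M → ∀ a r s w : ℕ, a ≤ s → a + 4 ≤ w →
    (∀ κ : Pm, κ.a = a → κ.r = r → κ.w = w → BDK p κ M w) →
    ∀ (G : Type) [Group G] [Finite G], ∀ χ ∈ Irr G, ∀ D : Subgroup G, Pool.Agent.MAP.DefectGroup p M χ D → ∀ Z ≤ D,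
    (∀ z ∈ Z, ∀ x ∈ D, z * x = x * z) → Nat.card D ≤ p ^ a * Nat.card Z → {z | z ∈ Z ∧ z ^ p = 1}.ncard ≤ p ^ r →
    (Om p (s - a) Z).ncard ≤ p → (∃ z ∈ Z, z ^ p ^ (s + w) ≠ 1) → IsOp p (⊤ : Subgroup G) ⊥ →
    ∀ d : ℤ, altSum (trivE G) p M χ d ⊤ = 0

end Pool.Agent.ND.NY
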