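import Pool.Agent.helper7.ZD.Spec

/-!
# ZD port (script) of: MP_baa4d7_al, theorem ND, row GBC
-/

set_option autoImplicit false

namespace Pool.Agent.ND.NY

open Pool.Agent.helper58.DC Pool.Agent.DI Pool.Agent.GR Pool.Agent.OB Pool.Agent.DR Pool.Agent.FI Pool.Agent.FI3 Pool.Agent.FI4 Pool.Agent.FI4I Pool.Agent.LE Pool.Agent.L5 Pool.Agent.NAB
open Pool.Agent.ZB (Pm Om KZ EQ BQ lQ MZc BDK)

theorem GBC (hNUB : NUB_stmt) (hCJG : CJG_stmt) (hZGP : ZGP_stmt) (hTPR : FI.TPR_stmt) (hTRN : TRN_stmt) (hB2 : B2_stmt) (hFEQ : FEQ_stmt) : GBC_stmt := by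
  intro p e m M hS hm G _ _ χ L Z
  have hp : p.Prime := hS.pr
  have h3 : ∀ (L : Subgroup G), ∀ n ∈ nz Z, ∀ ψ ∈ GS p e m M χ L Z, cjF n ψ ∈ GS p e m M χ (cjS n L) Z := by
    intro L n hn ψ hψ
    obtain ⟨h1, h2, z, x, hU, hZ⟩ := hψ
    refine ⟨(hCJG G M p n L).1 ψ h1, ?_, n * z * n⁻¹, n * x * n⁻¹, ((hNUB p e m M hS G L ψ z x hU).2.1 n), ?_⟩
    · exact SB.trans ((hCJG G M p n ⊤).2.2.2.2.2.1 (Subgroup.mem_top n) ψ).1 h2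
    · rw [(hZGP p e m.a hp hm G z hU.pe hU.od).1 n, hZ]
      exact (hFEQ G M n n Z Z L ψ ψ χ).2.1.2.2.2.1.2 hn
  refine ⟨⟨fun ψ hψ => hψ.1, ?_⟩, ?_, h3 L, ?_⟩
  · intro ψ hψ ψ' hψ' hb
    obtain ⟨h1, h2, z, x, hU, hZ⟩ := hψ
    have hSB : SB M L ψ ψ' := hb
    have h5 := (hTRN G M L ⊤ le_top ψ ψ' χ h1.1 hψ'.1 hSB).2
    exact ⟨hψ', h5.2 h2, z, x, (hNUB p e m M hS G L ψ z x hU).1 ψ' hSB, hZ⟩
  · intro hχ z x hU hZ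
    ext ψ
    constructor
    · intro h
      exact ⟨h.1, h.2.1⟩
    · intro h
      exact ⟨h.1, h.2, z, x, (hNUB p e m M hS G ⊤ χ z x hU).1 ψ (SB.symm h.2), hZ⟩
  · intro n hn ψ hψ
    have h4 := h3 (cz Z) n hn ψ hψ
    have h5 : cjS n (cz Z) = cz Z := by
      have h6 := (hFEQ G M n n Z Z L ψ ψ χ).2.1
      rw [← h6.1, h6.2.2.2.1.2 hn]
    rw [h5] at h4
    exact h4

end Pool.Agent.ND.NY
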