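import Pool.Agent.helper7.ZD.Spec

/-! # Row nd:GC1 (the structure of `GS C₁`) -/

set_option autoImplicit false

namespace Pool.Agent.ND.NY

open Pool.Agent.helper58.DC Pool.Agent.DI Pool.Agent.GR Pool.Agent.OB Pool.Agent.DR Pool.Agent.FI Pool.Agent.FI3 Pool.Agent.FI4 Pool.Agent.FI4I Pool.Agent.LE Pool.Agent.L5 Pool.Agent.NAB
open Pool.Agent.ZB (Pm Om KZ EQ BQ lQ MZc BDK)

open Classical in
theorem GC1 (hKC1 : KC1_stmt) (hGAC : GAC_stmt) (hGSY : GSY_stmt) (hZGP : ZGP_stmt) : GC1_stmt := by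
  intro p e m t M hM G _ _ χ Z z x hZ
  obtain ⟨-, -, -, -, ⟨-, hc2, -, hc4, -⟩, -⟩ := hZGP p e m.a hM.pr (by have := hZ.em; omega) G z hZ.uc.pe hZ.uc.od
  rw [hZ.zz] at hc2 hc4
  have hle : cz Z ≤ nz Z ⊓ cz (Eg p e z) := le_inf hc2 hc4
  obtain ⟨act, hact, -, h1⟩ := hGAC p e m t M hM G χ Z z x hZ (nz Z ⊓ cz (Eg p e z)) inf_le_left hle
  obtain ⟨hAcn, hst⟩ := h1 inf_le_right
  obtain ⟨w, D, hD, hSys⟩ := hGSY p e m t M hM G χ Z z x hZ (cz (Eg p e z)) (nz Z ⊓ cz (Eg p e z)) hc4 rfl act hact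
  have hf1 : Finite (XX p e m M χ Z) := ((IrrOn_fin (cz Z)).subset fun θ hθ => hθ.1).to_subtype
  have hf2 : Finite (PP p e m M χ (cz (Eg p e z)) Z) := ((IrrOn_fin (cz (Eg p e z))).subset fun θ hθ => hθ.1).to_subtype
  obtain ⟨ξ, ε, hε, hDξ, hξ⟩ := hKC1 (XX p e m M χ Z) (nz Z ⊓ cz (Eg p e z) : Subgroup G) ((cz Z).subgroupOf (nz Z ⊓ cz (Eg p e z))) act
    (fun θ θ' => orb Z t (θ : G → ℂ) (θ' : G → ℂ)) 1 hAcn le_rfl hst (PP p e m M χ (cz (Eg p e z)) Z) w D hSys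
  refine ⟨fun θ => if h : θ ∈ GS p e m M χ (cz Z) Z then (ξ ⟨θ, h⟩ : G → ℂ) else 0,
    fun θ => if h : θ ∈ GS p e m M χ (cz Z) Z then ((ε ⟨θ, h⟩ : ℤ) : ℂ) else 0, ?_, ?_, ?_⟩
  · intro θ hθ
    simp only [dif_pos hθ]
    refine ⟨(ξ ⟨θ, hθ⟩).2, ?_⟩
    rcases hε ⟨θ, hθ⟩ with h | h
    · left; rw [h]; norm_num
    · right; rw [h]; norm_num
  · intro ψ hψ θ hθ θ' hθ' ho
    simp only [dif_pos hθ, dif_pos hθ']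
    have h2 := hD ⟨ψ, hψ⟩ ⟨θ, hθ⟩ ⟨θ', hθ'⟩
    rw [if_pos ho, hDξ ⟨ψ, hψ⟩ ⟨θ, hθ⟩ ⟨θ', hθ'⟩ ho] at h2
    rw [← h2]
    have h3 : ∀ y : XX p e m M χ Z, (if ψ = (ξ y : G → ℂ) then (1 : ℂ) else 0) = (((if (⟨ψ, hψ⟩ : PP p e m M χ (cz (Eg p e z)) Z) = ξ y then (1 : ℤ) else 0) : ℤ) : ℂ) := by
      intro y
      by_cases hy : ψ = (ξ y : G → ℂ)
      · rw [if_pos hy, if_pos (Subtype.ext hy)]; norm_num
      · rw [if_neg hy, if_neg (fun h => hy (congrArg Subtype.val h))]; norm_num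
    rw [h3, h3]
    push_cast
    rfl
  · intro θ hθ θ' hθ' h
    simp only [dif_pos hθ, dif_pos hθ'] at h
    obtain ⟨a, ha⟩ := hξ ⟨θ, hθ⟩ ⟨θ', hθ'⟩ (Subtype.ext h)
    refine ⟨a, a.2, ?_⟩
    rw [← hact a ⟨θ, hθ⟩, ← ha]

end Pool.Agent.ND.NY
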