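import Pool.Agent.helper7.ZD.Spec
import Pool.Agent.helper59.FI.Base

/-!
# ZD port (script) of: Row GEV of THEOREM ND (MP_baa4d7_al): equivariance of the bijection
-/

set_option autoImplicit false

namespace Pool.Agent.ND.NY

open Pool.Agent.helper58.DC Pool.Agent.DI Pool.Agent.GR Pool.Agent.OB Pool.Agent.DR Pool.Agent.FI Pool.Agent.FI3 Pool.Agent.FI4 Pool.Agent.FI4I Pool.Agent.LE Pool.Agent.L5 Pool.Agent.NAB
open Pool.Agent.ZB (Pm Om KZ EQ BQ lQ MZc BDK)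

section

variable {G : Type} [Group G]

theorem GEV_cjmul (g h : G) (ψ : G → ℂ) : cjF (g * h) ψ = cjF g (cjF h ψ) := funMap_mul g h ψ

theorem GEV_cjone (ψ : G → ℂ) : cjF (1 : G) ψ = ψ := by
  funext x
  rw [cjF_apply, inv_one, one_mul, mul_one]

theorem GEV_cjinv (h : G) (ψ : G → ℂ) : cjF h⁻¹ (cjF h ψ) = ψ := by
  rw [← GEV_cjmul, inv_mul_cancel, GEV_cjone]

theorem GEV_inj {h : G} {ψ ψ' : G → ℂ} (e : cjF h ψ = cjF h ψ') : ψ = ψ' := by
  rw [← GEV_cjinv h ψ, e, GEV_cjinv]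

theorem GEV_in [Finite G] {L : Subgroup G} {ψ : G → ℂ} (h : ψ ∈ IrrOn L) {l : G} (hl : l ∈ L) : cjF l ψ = ψ := by
  funext x
  rw [cjF_apply]
  have h1 := IrrOn_conj h (L.inv_mem hl) x
  rwa [inv_inv] at h1

theorem GEV_nzcz {P : Subgroup G} {h : G} (hh : h ∈ nz P) : cjS h (cz P) = cz P := by
  have h1 : cj h P = P := cj_nz.2 hh
  have h2 := cj_cz h P
  rw [h1] at h2
  exact h2.symm

/-- scalar products are preserved -/
theorem GEV_mt {H : Subgroup G} {h : G} (hh : cjS h H = H) (ψ θ : G → ℂ) :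
    mt H (cjF h ψ) (cjF h θ) = mt H ψ θ := by
  have hk : ∀ x : G, x ∈ H ↔ h⁻¹ * x * h ∈ H := by
    intro x
    have h1 := mem_cjS (g := h) (x := x) (P := H)
    rw [hh] at h1
    exact h1
  unfold Pool.Agent.FI.mt
  refine congrArg (fun s : ℂ => s / (Nat.card H : ℂ)) ?_
  refine finsum_mem_eq_of_bijOn (fun x => h⁻¹ * x * h) ⟨?_, ?_, ?_⟩ ?_
  · intro x hx
    exact (hk x).1 hx
  · intro x _ y _ e
    have e1 : h⁻¹ * x * h = h⁻¹ * y * h := e
    exact mul_left_cancel (mul_right_cancel e1)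
  · intro y hy
    refine ⟨h * y * h⁻¹, ?_, ?_⟩
    · refine (hk _).2 ?_
      have e1 : h⁻¹ * (h * y * h⁻¹) * h = y := by group
      rw [e1]
      exact hy
    · change h⁻¹ * (h * y * h⁻¹) * h = y
      group
  · intro x _
    rw [cjF_apply, cjF_apply]
    have e1 : h⁻¹ * x⁻¹ * h = (h⁻¹ * x * h)⁻¹ := by group
    rw [e1]

/-- three different elements -/
theorem GEV_two {T : Type} [Finite T] (a : T) (h : 3 ≤ Nat.card T) : ∃ b c : T, b ≠ a ∧ c ≠ a ∧ b ≠ c := by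
  classical
  have := Fintype.ofFinite T
  rw [Nat.card_eq_fintype_card] at h
  obtain ⟨b, _, hb⟩ := Finset.exists_mem_notMem_of_card_lt_card
    (s := ({a} : Finset T)) (t := Finset.univ) (by
      rw [Finset.card_singleton, Finset.card_univ]
      omega)
  have h2 : ({a, b} : Finset T).card ≤ 2 := Finset.card_le_two
  obtain ⟨c, _, hc⟩ := Finset.exists_mem_notMem_of_card_lt_card
    (s := ({a, b} : Finset T)) (t := Finset.univ) (by
      rw [Finset.card_univ]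
      omega)
  refine ⟨b, c, ?_, ?_, ?_⟩
  · intro e
    exact hb (by rw [e]; exact Finset.mem_singleton_self a)
  · intro e
    exact hc (by rw [e]; exact Finset.mem_insert_self a _)
  · intro e
    exact hc (by rw [e]; exact Finset.mem_insert_of_mem (Finset.mem_singleton_self c))

end

theorem GEV (hGFX : GFX_stmt) (hGOS : GOS_stmt) (hGOB : GOB_stmt) (hGST : GST_stmt) (hGBC : GBC_stmt) (hZGP : ZGP_stmt) :
    GEV_stmt := by
  intro p e m t M hS G _ _ χ Z z x hZ ξ ε h1 h2 h3 h hh θ hθ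
  classical
  have hp : p.Prime := hS.pr
  have hem : m.a + 3 ≤ e := by have := hZ.em; omega
  obtain ⟨o1, o2, o3, o4⟩ := hGOB p e t hp G hZ.tx Z
  obtain ⟨-, -, -, -, z5, -, -, -⟩ := hZGP p e m.a hp hem G z hZ.uc.pe hZ.uc.od
  rw [hZ.zz] at z5
  obtain ⟨-, z52, z53, z54, -⟩ := z5
  -- (a)
  have hA : ∀ η ∈ GS p e m M χ (cz Z) Z, ∀ η' ∈ GS p e m M χ (cz Z) Z, orb Z t η η' → ξ η = ξ η' → η' = η := by
    intro η hη η' hη' ho he
    obtain ⟨a, ha, ea⟩ := h3 η hη η' hη' he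
    let A : Subgroup G :=
      { carrier := {a | a ∈ nz Z ⊓ cz (Eg p e z) ∧ orb Z t η (cjF a η)}
        one_mem' := by
          refine ⟨Subgroup.one_mem _, ?_⟩
          rw [GEV_cjone]
          exact o1 η
        mul_mem' := by
          rintro a b ⟨ha1, ha2⟩ ⟨hb1, hb2⟩
          refine ⟨Subgroup.mul_mem _ ha1 hb1, ?_⟩
          rw [GEV_cjmul]
          exact o3 _ _ _ ha2 (o4 a ha1.1 _ _ hb2)
        inv_mem' := by
          rintro a ⟨ha1, ha2⟩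
          refine ⟨Subgroup.inv_mem _ ha1, ?_⟩
          have h4 := o4 a⁻¹ (Subgroup.inv_mem _ ha1.1) _ _ ha2
          rw [GEV_cjinv] at h4
          exact o2 _ _ h4 }
    have hAm : ∀ b : G, b ∈ A ↔ (b ∈ nz Z ⊓ cz (Eg p e z) ∧ orb Z t η (cjF b η)) := fun b => Iff.rfl
    have hA1 : A ≤ nz Z := fun b hb => ((hAm b).1 hb).1.1
    have hA2 : cz Z ≤ A := by
      intro c hc
      refine (hAm c).2 ⟨⟨z52 hc, z54 hc⟩, ?_⟩
      rw [GEV_in hη.1 hc]
      exact o1 η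
    have hA3 : ∀ b ∈ A, orb Z t η (cjF b η) := fun b hb => ((hAm b).1 hb).2
    have hA4 : A ≤ cz (Eg p e z) := fun b hb => ((hAm b).1 hb).1.2
    have h5 := (hGFX p e m t M hS G χ Z z x hZ η hη A hA1 hA2 hA3).2.2 hA4
    have haA : a ∈ A := (hAm a).2 ⟨ha, by rw [← ea]; exact ho⟩
    rw [ea]
    exact GEV_in hη.1 (h5 haA)
  -- (b)
  have hB := hGBC p e m M hS hem G χ
  have hC : ∀ η ∈ GS p e m M χ (cz Z) Z, cjF h η ∈ GS p e m M χ (cz Z) Z := fun η hη => (hB (cz Z) Z).2.2.2 h hh η hη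
  have hO : ∀ η ∈ GS p e m M χ (cz Z) Z, ∀ η' : G → ℂ, orb Z t η η' → η' ∈ GS p e m M χ (cz Z) Z := by
    rintro η hη η' ⟨ν, rfl⟩
    exact (hGST p e m t M hS G χ Z z x hZ η hη ν).1
  have hψ : cjF h (ξ θ) ∈ GS p e m M χ (cz (Eg p e z)) Z := by
    have h4 := (hB (cz (Eg p e z)) Z).2.2.1 h hh (ξ θ) (h1 θ hθ).1
    rw [GEV_nzcz (z53 hh)] at h4
    exact h4
  have hmt : ∀ ψ η : G → ℂ, mt (cz Z) (cjF h ψ) (cjF h η) = mt (cz Z) ψ η := GEV_mt (GEV_nzcz hh)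
  by_contra hne
  have hkey : ∀ θ' : G → ℂ, orb Z t θ θ' → θ' ≠ θ → ξ (cjF h θ') = cjF h (ξ θ) := by
    intro θ' ho hn
    by_contra hn2
    have hθ' := hO θ hθ θ' ho
    have hn3 : ξ θ ≠ ξ θ' := fun e => hn (hA θ hθ θ' hθ' ho e)
    have e1 := h2 (ξ θ) (h1 θ hθ).1 θ hθ θ' hθ' ho
    have e2 := h2 (cjF h (ξ θ)) hψ (cjF h θ) (hC θ hθ) (cjF h θ') (hC θ' hθ') (o4 h hh _ _ ho)
    rw [hmt, hmt, e1, if_pos rfl, if_neg hn3, if_neg (fun e => hne e.symm), if_neg (fun e => hn2 e.symm)] at e2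
    have e3 : ε θ = 0 := by
      rw [sub_zero, mul_one, sub_zero, mul_zero] at e2
      exact e2
    rcases (h1 θ hθ).2 with e4 | e4
    · rw [e4] at e3
      exact one_ne_zero e3
    · rw [e4] at e3
      exact (neg_ne_zero.2 one_ne_zero) e3
  obtain ⟨c1, c2, -⟩ := hGOS p e m t M hS G χ Z z x hZ θ hθ
  have hp3 : 3 ≤ p ^ 3 := by
    have h4 : 2 ^ 3 ≤ p ^ 3 := Nat.pow_le_pow_left hp.two_le 3
    omega
  obtain ⟨⟨b, hb⟩, ⟨c, hc⟩, n1, n2, n3⟩ := GEV_two (⟨θ, o1 θ⟩ : {θ' : G → ℂ // orb Z t θ θ'}) (hp3.trans c1)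
  have m1 : b ≠ θ := fun e => n1 (Subtype.ext e)
  have m2 : c ≠ θ := fun e => n2 (Subtype.ext e)
  have m3 : b ≠ c := fun e => n3 (Subtype.ext e)
  have k1 := hkey b hb m1
  have k2 := hkey c hc m2
  have k3 : orb Z t (cjF h b) (cjF h c) := o4 h hh _ _ (o3 _ _ _ (o2 _ _ hb) hc)
  have k4 := hA (cjF h b) (hC b (hO θ hθ b hb)) (cjF h c) (hC c (hO θ hθ c hc)) k3 (k1.trans k2.symm)
  exact m3 (GEV_inj k4).symm

end Pool.Agent.ND.NY
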