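import Pool.Agent.helper7.ZD.Spec

/-!
# ZD port (script) of: Theorem ND (MP_baa4d7_al), row GGR: the scalar products
-/

set_option autoImplicit false

namespace Pool.Agent.ND.NY

open Pool.Agent.helper58.DC Pool.Agent.DI Pool.Agent.GR Pool.Agent.OB Pool.Agent.DR Pool.Agent.FI Pool.Agent.FI3 Pool.Agent.FI4 Pool.Agent.FI4I Pool.Agent.LE Pool.Agent.L5 Pool.Agent.NAB
open Pool.Agent.ZB (Pm Om KZ EQ BQ lQ MZc BDK)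

theorem GGR_mt {G : Type} [Group G] [Fintype G] (C : Subgroup G) (ψ θ : G → ℂ) (hθ : ∀ x, x ∉ C → θ x = 0) :
    mt C ψ θ = (∑ x : G, ψ x * θ x⁻¹) / Nat.card C := by
  classical
  unfold Pool.Agent.FI.mt
  congr 1
  rw [finsum_mem_def, finsum_eq_sum_of_fintype]
  refine Finset.sum_congr rfl fun x _ => ?_
  by_cases hx : x ∈ C
  · rw [Set.indicator_of_mem (show x ∈ (C : Set G) from hx)]
  · rw [Set.indicator_of_notMem (show x ∉ (C : Set G) from hx), hθ x⁻¹ (fun h => hx (by simpa using C.inv_mem h)), mul_zero]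

theorem GGR_prod {G : Type} [Group G] [Fintype G] {T : Set (G → ℂ)} (hT : T.Finite) (β₁ β₂ : G → ℂ) :
    ∑ ψ ∈ hT.toFinset, (∑ a : G, ψ a * β₁ a⁻¹) * (∑ b : G, ψ b⁻¹ * β₂ b) = ∑ a : G, ∑ b : G, Sf T a b * (β₁ a⁻¹ * β₂ b) := by
  classical
  have h1 : ∀ a b : G, Sf T a b * (β₁ a⁻¹ * β₂ b) = ∑ ψ ∈ hT.toFinset, (ψ a * β₁ a⁻¹) * (ψ b⁻¹ * β₂ b) := by
    intro a b
    unfold Sf
    rw [finsum_mem_eq_finite_toFinset_sum _ hT, Finset.sum_mul]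
    refine Finset.sum_congr rfl fun ψ _ => ?_
    ring
  calc ∑ ψ ∈ hT.toFinset, (∑ a : G, ψ a * β₁ a⁻¹) * (∑ b : G, ψ b⁻¹ * β₂ b) =
      ∑ ψ ∈ hT.toFinset, ∑ a : G, ∑ b : G, (ψ a * β₁ a⁻¹) * (ψ b⁻¹ * β₂ b) :=
        Finset.sum_congr rfl fun ψ _ => Finset.sum_mul_sum _ _ _ _
    _ = ∑ a : G, ∑ ψ ∈ hT.toFinset, ∑ b : G, (ψ a * β₁ a⁻¹) * (ψ b⁻¹ * β₂ b) := Finset.sum_comm
    _ = ∑ a : G, ∑ b : G, ∑ ψ ∈ hT.toFinset, (ψ a * β₁ a⁻¹) * (ψ b⁻¹ * β₂ b) :=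
        Finset.sum_congr rfl fun a _ => Finset.sum_comm
    _ = ∑ a : G, ∑ b : G, Sf T a b * (β₁ a⁻¹ * β₂ b) :=
        Finset.sum_congr rfl fun a _ => Finset.sum_congr rfl fun b _ => (h1 a b).symm

/-- the reproducing property -/
theorem GGR_rep (hB2 : B2_stmt) {G : Type} [Group G] [Fintype G] {C : Subgroup G} {T : Set (G → ℂ)} (hT : T ⊆ IrrOn C) {θ : G → ℂ}
    (hθ : θ ∈ IrrOn C) (a : G) : (θ ∈ T → ∑ b : G, Sf T a b * θ b = Nat.card C * θ a) ∧ (θ ∉ T → ∑ b : G, Sf T a b * θ b = 0) := by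
  classical
  have hfin : T.Finite := (hB2 G C).1.subset hT
  have h1 : ∑ b : G, Sf T a b * θ b = ∑ ψ ∈ hfin.toFinset, ψ a * ∑ b : G, θ b * ψ b⁻¹ := by
    have h2 : ∀ b : G, Sf T a b * θ b = ∑ ψ ∈ hfin.toFinset, ψ a * (θ b * ψ b⁻¹) := by
      intro b
      unfold Sf
      rw [finsum_mem_eq_finite_toFinset_sum _ hfin, Finset.sum_mul]
      refine Finset.sum_congr rfl fun ψ _ => ?_
      ring
    simp only [h2, Finset.mul_sum]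
    exact Finset.sum_comm
  have h3 : ∀ ψ ∈ hfin.toFinset, ∑ b : G, θ b * ψ b⁻¹ = if θ = ψ then (Nat.card C : ℂ) else 0 := by
    intro ψ hψ
    have h5 := ((hB2 G C).2 θ hθ).2.2.2.2 ψ (hT (hfin.mem_toFinset.1 hψ))
    rw [finsum_eq_sum_of_fintype] at h5
    rw [h5]
    by_cases h : θ = ψ <;> simp [h]
  have h4 : ∑ b : G, Sf T a b * θ b = ∑ ψ ∈ hfin.toFinset, ψ a * if θ = ψ then (Nat.card C : ℂ) else 0 := by
    rw [h1]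
    exact Finset.sum_congr rfl fun ψ hψ => by rw [h3 ψ hψ]
  constructor
  · intro hθT
    rw [h4, Finset.sum_eq_single θ]
    · rw [if_pos rfl, mul_comm]
    · intro ψ _ hne
      rw [if_neg (Ne.symm hne), mul_zero]
    · intro h
      exact absurd (hfin.mem_toFinset.2 hθT) h
  · intro hθT
    rw [h4]
    refine Finset.sum_eq_zero fun ψ hψ => ?_
    rw [if_neg, mul_zero]
    rintro rfl
    exact hθT (hfin.mem_toFinset.1 hψ)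

theorem GGR_nz {G : Type} [Group G] {Z : Subgroup G} {g : G} (hg : g ∈ nz Z) : Z.map (MulAut.conj g).toMonoidHom = Z := by
  ext x
  have h1 : x ∈ cjS g Z ↔ g⁻¹ * x * g ∈ Z := mem_cjS
  refine h1.trans ?_
  have h2 := Subgroup.mem_normalizer_iff.1 hg (g⁻¹ * x * g)
  have h3 : g * (g⁻¹ * x * g) * g⁻¹ = x := by group
  rw [h3] at h2
  exact h2

theorem GGR (hGKR : GKR_stmt) (hGSP : GSP_stmt) (hGST : GST_stmt) (hB2 : B2_stmt) (hCJG : CJG_stmt) (hTRN : TRN_stmt) : GGR_stmt := by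
  intro p e m t M hS G _ _ χ Z z x hZD L hCL T hBC θ₁ hθ₁ θ₁' hor₁ θ₂ hθ₂ θ₂' hor₂
  classical
  have := Fintype.ofFinite G
  obtain ⟨ν₁, rfl⟩ := hor₁
  obtain ⟨ν₂, rfl⟩ := hor₂
  have h1 := (hGST p e m t M hS G χ Z z x hZD θ₁ hθ₁ ν₁).1.1
  have h2 := (hGST p e m t M hS G χ Z z x hZD θ₂ hθ₂ ν₂).1.1
  have h2SB := (hGST p e m t M hS G χ Z z x hZD θ₂ hθ₂ ν₂).2
  have hs1 : ∀ g, ¬ Z ≤ Subgroup.zpowers g → st Z t ν₁ θ₁ g = θ₁ g := fun g hg => hGSP p e m t M hS G χ Z z x hZD θ₁ hθ₁ ν₁ g hg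
  have hs2 : ∀ g, ¬ Z ≤ Subgroup.zpowers g → st Z t ν₂ θ₂ g = θ₂ g := fun g hg => hGSP p e m t M hS G χ Z z x hZD θ₂ hθ₂ ν₂ g hg
  have hθ₁C := hθ₁.1
  have hθ₂C := hθ₂.1
  clear hθ₁ hθ₂
  generalize st Z t ν₁ θ₁ = θ₁' at *
  generalize st Z t ν₂ θ₂ = θ₂' at *
  have hz := hZD.uc
  have hzz := hZD.zz
  have hZcz : Z ≤ cz Z := by
    rw [← hzz]
    unfold Zg
    intro y hy
    rw [Subgroup.mem_centralizer_iff]
    intro w hw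
    obtain ⟨i, rfl⟩ := Subgroup.mem_zpowers_iff.1 hy
    obtain ⟨j, rfl⟩ := Subgroup.mem_zpowers_iff.1 hw
    rw [← zpow_add, ← zpow_add, add_comm j i]
  have hZp : IsPGroup p Z := by
    obtain ⟨k, hk⟩ := hz.pe
    rintro ⟨y, hy⟩
    refine ⟨k, ?_⟩
    rw [← hzz] at hy
    unfold Zg at hy
    obtain ⟨i, hi⟩ := Subgroup.mem_zpowers_iff.1 hy
    apply Subtype.ext
    change y ^ p ^ k = 1
    rw [← hi]
    have h3 : ((z ^ p ^ (e - (m.a + 3))) ^ i) ^ p ^ k = ((z ^ p ^ k) ^ p ^ (e - (m.a + 3))) ^ i := by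
      rw [← zpow_natCast, ← zpow_mul, mul_comm i, zpow_mul, zpow_natCast, ← pow_mul, ← pow_mul, mul_comm (p ^ k)]
    rw [h3, hk, one_pow, one_zpow]
  have hz1 : ∀ x, x ∉ cz Z → θ₁ x = 0 := ((hB2 G (cz Z)).2 θ₁ hθ₁C).2.2.2.1
  have hz1' : ∀ x, x ∉ cz Z → θ₁' x = 0 := ((hB2 G (cz Z)).2 θ₁' h1).2.2.2.1
  have hz2 : ∀ x, x ∉ cz Z → θ₂ x = 0 := ((hB2 G (cz Z)).2 θ₂ hθ₂C).2.2.2.1
  have hz2' : ∀ x, x ∉ cz Z → θ₂' x = 0 := ((hB2 G (cz Z)).2 θ₂' h2).2.2.2.1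
  have hTfin : T.Finite := (hB2 G L).1.subset hBC.sub
  have hc : (Nat.card (cz Z) : ℂ) ≠ 0 := by exact_mod_cast Nat.card_pos.ne'
  have hβ₁ : ∀ a : G, θ₁ a⁻¹ - θ₁' a⁻¹ ≠ 0 → a ∈ L ∧ Z ≤ Subgroup.zpowers a := by
    intro a ha
    constructor
    · apply hCL
      by_contra hne
      have : a⁻¹ ∉ cz Z := fun h => hne (by simpa using (cz Z).inv_mem h)
      rw [hz1 _ this, hz1' _ this, sub_zero] at ha
      exact ha rfl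
    · by_contra hne
      apply ha
      rw [hs1 a⁻¹ (by rwa [Subgroup.zpowers_inv]), sub_self]
  have hβ₂ : ∀ a : G, θ₂ a - θ₂' a ≠ 0 → a ∈ L ∧ Z ≤ Subgroup.zpowers a := by
    intro a ha
    constructor
    · apply hCL
      by_contra hne
      rw [hz2 _ hne, hz2' _ hne, sub_zero] at ha
      exact ha rfl
    · by_contra hne
      apply ha
      rw [hs2 a hne, sub_self]
  -- the left side
  have hLHS : ∑ᶠ ψ ∈ T, (mt (cz Z) ψ θ₁ - mt (cz Z) ψ θ₁') * (mt (cz Z) ψ θ₂ - mt (cz Z) ψ θ₂') =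
      ((Nat.card (cz Z) : ℂ))⁻¹ * ((Nat.card (cz Z) : ℂ))⁻¹ * ∑ a : G, ∑ b : G, Sf T a b * ((fun g => θ₁ g - θ₁' g) a⁻¹ * (fun g => θ₂ g - θ₂' g) b) := by
    rw [finsum_mem_eq_finite_toFinset_sum _ hTfin, ← GGR_prod hTfin (fun g => θ₁ g - θ₁' g) (fun g => θ₂ g - θ₂' g), Finset.mul_sum]
    refine Finset.sum_congr rfl fun ψ _ => ?_
    rw [GGR_mt _ ψ _ hz1, GGR_mt _ ψ _ hz1', GGR_mt _ ψ _ hz2, GGR_mt _ ψ _ hz2']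
    have e1 : ∑ a : G, ψ a * (fun g => θ₁ g - θ₁' g) a⁻¹ = ∑ a : G, ψ a * θ₁ a⁻¹ - ∑ a : G, ψ a * θ₁' a⁻¹ := by
      rw [← Finset.sum_sub_distrib]
      exact Finset.sum_congr rfl fun a _ => by ring
    have e2 : ∑ b : G, ψ b⁻¹ * (fun g => θ₂ g - θ₂' g) b = ∑ a : G, ψ a * θ₂ a⁻¹ - ∑ a : G, ψ a * θ₂' a⁻¹ := by
      rw [← Finset.sum_sub_distrib, ← Equiv.sum_comp (Equiv.inv G)]
      refine Finset.sum_congr rfl fun a _ => ?_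
      simp only [Equiv.inv_apply, inv_inv]
      ring
    rw [e1, e2]
    field_simp
  -- the kernel
  have hAfin : ((nz Z ⊓ L : Subgroup G) : Set G).Finite := Set.toFinite _
  have hmain : (Nat.card (cz Z) : ℂ) * ∑ a : G, ∑ b : G, Sf T a b * ((fun g => θ₁ g - θ₁' g) a⁻¹ * (fun g => θ₂ g - θ₂' g) b) =
      ∑ s ∈ hAfin.toFinset, ∑ a : G, (θ₁ a⁻¹ - θ₁' a⁻¹) * ∑ b : G, Sf {φ | φ ∈ IrrOn (cz Z) ∧ ∃ ψ ∈ T, SB M L φ ψ} (s * a * s⁻¹) b * (θ₂ b - θ₂' b) := by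
    rw [Finset.sum_comm (s := hAfin.toFinset), Finset.mul_sum]
    refine Finset.sum_congr rfl fun a _ => ?_
    rw [← Finset.mul_sum, Finset.sum_comm (s := hAfin.toFinset), Finset.mul_sum, Finset.mul_sum]
    refine Finset.sum_congr rfl fun b _ => ?_
    rw [← Finset.sum_mul]
    by_cases hne : (θ₁ a⁻¹ - θ₁' a⁻¹) * (θ₂ b - θ₂' b) = 0
    · have e3 : (Nat.card (cz Z) : ℂ) * (Sf T a b * ((fun g => θ₁ g - θ₁' g) a⁻¹ * (fun g => θ₂ g - θ₂' g) b)) =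
          (Nat.card (cz Z) : ℂ) * (Sf T a b * ((θ₁ a⁻¹ - θ₁' a⁻¹) * (θ₂ b - θ₂' b))) := rfl
      rw [e3, hne, mul_zero, mul_zero]
      rcases mul_eq_zero.1 hne with h | h
      · rw [h, zero_mul]
      · rw [h, mul_zero, mul_zero]
    · have ha := hβ₁ a (left_ne_zero_of_mul hne)
      have hb := hβ₂ b (right_ne_zero_of_mul hne)
      have hk := hGKR p M hS G Z L hZp hZcz hCL T hBC a ha.1 b hb.1 ha.2 hb.2
      rw [finsum_mem_eq_finite_toFinset_sum _ hAfin] at hk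
      rw [← hk]
      ring
  -- conjugation
  have hcj : ∀ s ∈ nz Z, ∀ θ ∈ IrrOn (cz Z), cjF s θ ∈ IrrOn (cz Z) := by
    intro s hs θ hθ
    have h3 := (hCJG G M p s (cz Z)).1 θ hθ
    rw [← (hCJG G M p s (cz Z)).2.2.2.2.1 Z, GGR_nz hs] at h3
    exact h3
  obtain ⟨J, hJ⟩ : ∃ J : (G → ℂ) → (G → ℂ) → ℂ, ∀ u v, (u = v → J u v = 1) ∧ (u ≠ v → J u v = 0) :=
    ⟨fun u v => if u = v then 1 else 0, fun u v => ⟨fun h => by simp [h], fun h => by simp [h]⟩⟩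
  have hJ' : ∀ (u v : G → ℂ) (inst : Decidable (u = v)), @ite ℂ (u = v) inst 1 0 = J u v := by
    intro u v inst
    by_cases h : u = v
    · rw [if_pos h, (hJ u v).1 h]
    · rw [if_neg h, (hJ u v).2 h]
  have hor : ∀ s ∈ nz Z, ∀ θ ∈ IrrOn (cz Z), ∀ φ ∈ IrrOn (cz Z), ∑ a : G, φ a⁻¹ * θ (s * a * s⁻¹) = Nat.card (cz Z) * J (cjF s⁻¹ θ) φ := by
    intro s hs θ hθ φ hφ
    have h3 := ((hB2 G (cz Z)).2 _ (hcj s⁻¹ ((nz Z).inv_mem hs) θ hθ)).2.2.2.2 φ hφ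
    rw [finsum_eq_sum_of_fintype] at h3
    have h4 : ∑ a : G, φ a⁻¹ * θ (s * a * s⁻¹) = ∑ a : G, cjF s⁻¹ θ a * φ a⁻¹ := by
      refine Finset.sum_congr rfl fun a _ => ?_
      rw [cjF_apply, inv_inv, mul_comm]
    rw [h4, h3]
    by_cases h : cjF s⁻¹ θ = φ
    · rw [if_pos h, (hJ _ _).1 h, mul_one]
    · rw [if_neg h, (hJ _ _).2 h, mul_zero]
  have hT' : {φ | φ ∈ IrrOn (cz Z) ∧ ∃ ψ ∈ T, SB M L φ ψ} ⊆ IrrOn (cz Z) := fun φ h => h.1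
  have htr : ∀ ψ : G → ℂ, SB M L θ₂ ψ ↔ SB M L θ₂' ψ := by
    intro ψ
    exact (hTRN G M (cz Z) L hCL θ₂' θ₂ ψ hz2' hz2 h2SB).2
  refine ⟨fun hex => ?_, fun hex => ?_⟩
  · obtain ⟨ψ₀, hψ₀, hSB₀⟩ := hex
    have m2 : θ₂ ∈ {φ | φ ∈ IrrOn (cz Z) ∧ ∃ ψ ∈ T, SB M L φ ψ} := ⟨hθ₂C, ψ₀, hψ₀, hSB₀⟩
    have m2' : θ₂' ∈ {φ | φ ∈ IrrOn (cz Z) ∧ ∃ ψ ∈ T, SB M L φ ψ} := ⟨h2, ψ₀, hψ₀, (htr ψ₀).1 hSB₀⟩
    have hrep : ∀ a' : G, ∑ b : G, Sf {φ | φ ∈ IrrOn (cz Z) ∧ ∃ ψ ∈ T, SB M L φ ψ} a' b * (θ₂ b - θ₂' b) = Nat.card (cz Z) * (θ₂ a' - θ₂' a') := by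
      intro a'
      have h3 := (GGR_rep hB2 hT' hθ₂C a').1 m2
      have h4 := (GGR_rep hB2 hT' h2 a').1 m2'
      rw [mul_sub, ← h3, ← h4, ← Finset.sum_sub_distrib]
      exact Finset.sum_congr rfl fun b _ => by ring
    have hfin : (Nat.card (cz Z) : ℂ) * ∑ a : G, ∑ b : G, Sf T a b * ((fun g => θ₁ g - θ₁' g) a⁻¹ * (fun g => θ₂ g - θ₂' g) b) =
        ∑ s ∈ hAfin.toFinset, (Nat.card (cz Z) : ℂ) * (Nat.card (cz Z) : ℂ) * (J (cjF s⁻¹ θ₂) θ₁ - J (cjF s⁻¹ θ₂) θ₁' - J (cjF s⁻¹ θ₂') θ₁ + J (cjF s⁻¹ θ₂') θ₁') := by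
      rw [hmain]
      refine Finset.sum_congr rfl fun s hs => ?_
      have hsZ : s ∈ nz Z := (Subgroup.mem_inf.1 (hAfin.mem_toFinset.1 hs)).1
      have h5 : ∑ a : G, (θ₁ a⁻¹ - θ₁' a⁻¹) * ∑ b : G, Sf {φ | φ ∈ IrrOn (cz Z) ∧ ∃ ψ ∈ T, SB M L φ ψ} (s * a * s⁻¹) b * (θ₂ b - θ₂' b) =
          Nat.card (cz Z) * (∑ a : G, θ₁ a⁻¹ * θ₂ (s * a * s⁻¹) - ∑ a : G, θ₁' a⁻¹ * θ₂ (s * a * s⁻¹) - ∑ a : G, θ₁ a⁻¹ * θ₂' (s * a * s⁻¹) + ∑ a : G, θ₁' a⁻¹ * θ₂' (s * a * s⁻¹)) := by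
        rw [← Finset.sum_sub_distrib, ← Finset.sum_sub_distrib, ← Finset.sum_add_distrib, Finset.mul_sum]
        refine Finset.sum_congr rfl fun a _ => ?_
        rw [hrep]
        ring
      rw [h5, hor s hsZ θ₂ hθ₂C θ₁ hθ₁C, hor s hsZ θ₂ hθ₂C θ₁' h1, hor s hsZ θ₂' h2 θ₁ hθ₁C, hor s hsZ θ₂' h2 θ₁' h1]
      ring
    have hR : ∑ s ∈ hAfin.toFinset, (J (cjF s⁻¹ θ₂) θ₁ - J (cjF s⁻¹ θ₂) θ₁' - J (cjF s⁻¹ θ₂') θ₁ + J (cjF s⁻¹ θ₂') θ₁') =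
        ∑ s ∈ hAfin.toFinset, (J (cjF s θ₂) θ₁ - J (cjF s θ₂) θ₁' - J (cjF s θ₂') θ₁ + J (cjF s θ₂') θ₁') := by
      refine Finset.sum_nbij' (fun s => s⁻¹) (fun s => s⁻¹) ?_ ?_ ?_ ?_ ?_
      · intro s hs
        rw [Set.Finite.mem_toFinset] at hs ⊢
        exact (nz Z ⊓ L : Subgroup G).inv_mem hs
      · intro s hs
        rw [Set.Finite.mem_toFinset] at hs ⊢
        exact (nz Z ⊓ L : Subgroup G).inv_mem hs
      · intro s _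
        exact inv_inv s
      · intro s _
        exact inv_inv s
      · intro s _
        rfl
    rw [finsum_mem_eq_finite_toFinset_sum _ hAfin]
    simp only [hJ']
    rw [hLHS, ← hR]
    rw [← Finset.mul_sum] at hfin
    have h6 : ∑ a : G, ∑ b : G, Sf T a b * ((fun g => θ₁ g - θ₁' g) a⁻¹ * (fun g => θ₂ g - θ₂' g) b) =
        (Nat.card (cz Z) : ℂ) * ∑ s ∈ hAfin.toFinset, (J (cjF s⁻¹ θ₂) θ₁ - J (cjF s⁻¹ θ₂) θ₁' - J (cjF s⁻¹ θ₂') θ₁ + J (cjF s⁻¹ θ₂') θ₁') := by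
      apply mul_left_cancel₀ hc
      rw [hfin]
      ring
    rw [h6]
    field_simp
  · have n2 : θ₂ ∉ {φ | φ ∈ IrrOn (cz Z) ∧ ∃ ψ ∈ T, SB M L φ ψ} := fun h => hex h.2
    have n2' : θ₂' ∉ {φ | φ ∈ IrrOn (cz Z) ∧ ∃ ψ ∈ T, SB M L φ ψ} := by
      rintro ⟨_, ψ, hψ, h⟩
      exact hex ⟨ψ, hψ, (htr ψ).2 h⟩
    have hrep : ∀ a' : G, ∑ b : G, Sf {φ | φ ∈ IrrOn (cz Z) ∧ ∃ ψ ∈ T, SB M L φ ψ} a' b * (θ₂ b - θ₂' b) = 0 := by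
      intro a'
      have h3 := (GGR_rep hB2 hT' hθ₂C a').2 n2
      have h4 := (GGR_rep hB2 hT' h2 a').2 n2'
      have h5 : ∑ b : G, Sf {φ | φ ∈ IrrOn (cz Z) ∧ ∃ ψ ∈ T, SB M L φ ψ} a' b * (θ₂ b - θ₂' b) =
          ∑ b : G, Sf {φ | φ ∈ IrrOn (cz Z) ∧ ∃ ψ ∈ T, SB M L φ ψ} a' b * θ₂ b - ∑ b : G, Sf {φ | φ ∈ IrrOn (cz Z) ∧ ∃ ψ ∈ T, SB M L φ ψ} a' b * θ₂' b := by
        rw [← Finset.sum_sub_distrib]
        exact Finset.sum_congr rfl fun b _ => by ring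
      rw [h5, h3, h4, sub_zero]
    have h6 : ∑ a : G, ∑ b : G, Sf T a b * ((fun g => θ₁ g - θ₁' g) a⁻¹ * (fun g => θ₂ g - θ₂' g) b) = 0 := by
      apply mul_left_cancel₀ hc
      rw [hmain, mul_zero]
      refine Finset.sum_eq_zero fun s _ => Finset.sum_eq_zero fun a _ => ?_
      rw [hrep, mul_zero]
    rw [hLHS, h6, mul_zero]

end Pool.Agent.ND.NY
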