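import Pool.Agent.helper7.ZD.Spec

/-!
# ZD port (script) of: Row GOU of theorem ND (MP_baa4d7_al): characters outside of `GS L`
-/

set_option autoImplicit false

namespace Pool.Agent.ND.NY

open Pool.Agent.helper58.DC Pool.Agent.DI Pool.Agent.GR Pool.Agent.OB Pool.Agent.DR Pool.Agent.FI Pool.Agent.FI3 Pool.Agent.FI4 Pool.Agent.FI4I Pool.Agent.LE Pool.Agent.L5 Pool.Agent.NAB
open Pool.Agent.ZB (Pm Om KZ EQ BQ lQ MZc BDK)

theorem GOU (hGGR : GGR_stmt) (hGUC : GUC_stmt) (hGBC : GBC_stmt) (hB3 : Pool.Agent.DI.B3_stmt) (hB2 : Pool.Agent.DI.B2_stmt)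
    (hQRS : QRS_stmt) (hGST : GST_stmt) : GOU_stmt := by
  intro p e m t M hset G _ _ χ Z z x hZD L hL ψ hψ hψn θ hθ θ' hθθ'
  have hem : m.a + 3 ≤ e := by
    have := hZD.em
    omega
  obtain ⟨hBC, -, -, -⟩ := hGBC p e m M hset hem G χ L Z
  set T : Set (G → ℂ) := {φ | φ ∈ IrrOn L ∧ φ ∉ GS p e m M χ L Z} with hT
  have hTBC : BC M L T := by
    refine ⟨fun φ hφ => hφ.1, ?_⟩
    rintro φ ⟨h1, h2⟩ φ' h3 h4
    refine ⟨h3, fun h5 => h2 (hBC.closed φ' h5 φ h1 ?_)⟩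
    exact SB.symm (show SB M L φ φ' from h4)
  have hno : ¬ ∃ φ ∈ T, SB M L θ φ := by
    rintro ⟨φ, ⟨h1, h2⟩, h3⟩
    obtain ⟨ψ₀, h4, h5⟩ := hGUC p e m t M hset G χ Z z x hZD L hL θ hθ
    exact h2 (hBC.closed ψ₀ h4 φ h1 (h5.symm.trans h3))
  have hsum := (hGGR p e m t M hset G χ Z z x hZD L hL T hTBC θ hθ θ' hθθ' θ hθ θ' hθθ').2 hno
  have hθi : θ ∈ IrrOn (cz Z) := hθ.1
  have hθi' : θ' ∈ IrrOn (cz Z) := by
    obtain ⟨ν, rfl⟩ := hθθ'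
    exact (hGST p e m t M hset G χ Z z x hZD θ hθ ν).1.1
  have hfin : T.Finite := (hB2 G L).1.subset fun φ hφ => hφ.1
  rw [finsum_mem_eq_finite_toFinset_sum _ hfin] at hsum
  have hreal : ∀ φ ∈ hfin.toFinset, (mt (cz Z) φ θ - mt (cz Z) φ θ') * (mt (cz Z) φ θ - mt (cz Z) φ θ') =
      ((((mt (cz Z) φ θ - mt (cz Z) φ θ').re) ^ 2 : ℝ) : ℂ) := by
    intro φ hφ
    rw [Set.Finite.mem_toFinset] at hφ
    obtain ⟨n, hn⟩ := (hQRS G L (cz Z) hL φ hφ.1).1 θ hθi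
    obtain ⟨n', hn'⟩ := (hQRS G L (cz Z) hL φ hφ.1).1 θ' hθi'
    rw [hn, hn']
    have e1 : ((n : ℂ) - n').re = (n : ℝ) - n' := by simp
    rw [e1]
    push_cast
    ring
  rw [Finset.sum_congr rfl hreal, ← Complex.ofReal_sum, Complex.ofReal_eq_zero,
    Finset.sum_eq_zero_iff_of_nonneg fun _ _ => sq_nonneg _] at hsum
  have hψT : ψ ∈ hfin.toFinset := by
    rw [Set.Finite.mem_toFinset]
    exact ⟨hψ, hψn⟩
  have h1 := hreal ψ hψT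
  rw [hsum ψ hψT, Complex.ofReal_zero, mul_self_eq_zero] at h1
  exact sub_eq_zero.1 h1

end Pool.Agent.ND.NY
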