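import Pool.Agent.helper7.ZD.Spec
import Pool.Agent.helper65.NA.NEG
import Pool.Agent.helper11.FI.SYL
import Pool.Agent.helper59.FI.Base

/-!
# ZD port (script) of: Row nd:GS4 (MP_baa4d7_al): stabilisers of the blocks of `cz Z`
-/

set_option autoImplicit false

namespace Pool.Agent.ND.NY

open Pool.Agent.helper58.DC Pool.Agent.DI Pool.Agent.GR Pool.Agent.OB Pool.Agent.DR Pool.Agent.FI Pool.Agent.FI3 Pool.Agent.FI4 Pool.Agent.FI4I Pool.Agent.LE Pool.Agent.L5 Pool.Agent.NAB
open Pool.Agent.ZB (Pm Om KZ EQ BQ lQ MZc BDK)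

/-- a sum over a finite group which is almost invariant under an element of `p`-power order -/
theorem GS4_orb {Q : Type} [Group Q] [Finite Q] {p : ℕ} {M : Ideal (integralClosure ℤ ℂ)} (hS : Setup p M) (F : Q → ℂ)
    (hF : ∀ q, IntAt M (F q)) (n : Q) (hn : n ≠ 1) (k : ℕ) (hk : n ^ p ^ k = 1)
    (h : ∀ q, InM M (F (n * q) - F q)) : InM M (∑ᶠ q, F q) := by
  classical
  let _ : Fintype Q := Fintype.ofFinite Q
  have hp : p.Prime := hS.pr
  set s := Subgroup.zpowers n with hs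
  let _ : Fintype (Q ⧸ s) := Fintype.ofFinite _
  have hpow : ∀ i : ℕ, ∀ q, InM M (F (n ^ i * q) - F q) := by
    intro i
    induction i with
    | zero =>
      intro q
      rw [pow_zero, one_mul, sub_self]
      exact InM.zero hS
    | succ i ih =>
      intro q
      have h1 := InM.add hS (ih (n * q)) (h q)
      have e : F (n ^ i * (n * q)) - F (n * q) + (F (n * q) - F q) = F (n ^ (i + 1) * q) - F q := by
        rw [pow_succ, mul_assoc]
        ring
      rwa [e] at h1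
  have hcard : p ∣ Nat.card s := by
    rw [Nat.card_zpowers]
    have h1 : orderOf n ∣ p ^ k := orderOf_dvd_of_pow_eq_one hk
    obtain ⟨j, hj, e⟩ := (Nat.dvd_prime_pow hp).1 h1
    rw [e]
    rcases j with _ | j
    · exact absurd (orderOf_eq_one_iff.1 (by simpa using e)) hn
    · exact Dvd.intro_left _ (pow_succ p j).symm
  have hpowz : ∀ u ∈ s, ∀ q, InM M (F (u * q) - F q) := by
    intro u hu q
    obtain ⟨i, rfl⟩ := (mem_powers_iff_mem_zpowers.2 hu)
    exact hpow i q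
  have e1 : ∑ᶠ q, F q = ∑ q : Q, F q⁻¹ := by
    rw [finsum_eq_sum_of_fintype]
    exact (Equiv.sum_comp (Equiv.inv Q) F).symm
  rw [e1, ← Finset.sum_fiberwise (Finset.univ) (fun q : Q => (QuotientGroup.mk q : Q ⧸ s))]
  refine InM.sum hS _ fun c _ => ?_
  have e2 : ∑ q ∈ Finset.univ.filter (fun q : Q => (QuotientGroup.mk q : Q ⧸ s) = c), F q⁻¹ =
      ∑ q ∈ Finset.univ.filter (fun q : Q => (QuotientGroup.mk q : Q ⧸ s) = c), (F q⁻¹ - F (c.out)⁻¹) +
        (Nat.card s : ℂ) * F (c.out)⁻¹ := by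
    rw [Finset.sum_sub_distrib, Finset.sum_const, nsmul_eq_mul]
    have e3 : (Finset.univ.filter (fun q : Q => (QuotientGroup.mk q : Q ⧸ s) = c)).card = Nat.card s := by
      have e4 := QuotientGroup.card_preimage_mk s ({c} : Set (Q ⧸ s))
      rw [Nat.card_eq_card_toFinset, Nat.card_unique (α := ({c} : Set (Q ⧸ s))), mul_one] at e4
      rw [← e4]
      congr 1
      ext q
      simp
    rw [e3]
    ring
  rw [e2]
  refine InM.add hS (InM.sum hS _ fun q hq => ?_) (InM.mul_right hS ((InM.natCast hS _).2 hcard) (hF _))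
  have hq' : (QuotientGroup.mk q : Q ⧸ s) = c := (Finset.mem_filter.1 hq).2
  have h3 : c.out⁻¹ * q ∈ s := by
    rw [← QuotientGroup.eq, hq']
    exact QuotientGroup.out_eq' c
  have h4 := hpowz (c.out⁻¹ * q)⁻¹ (s.inv_mem h3) (c.out)⁻¹
  have e5 : (c.out⁻¹ * q)⁻¹ * (c.out)⁻¹ = q⁻¹ := by group
  rwa [e5] at h4

theorem GS4_cc_sum {G : Type} [Group G] [Finite G] (θ : G → ℂ) {ι : Type} [Finite ι] (f : ι → G → ℂ) :
    cc θ (fun x => ∑ᶠ i, f i x) = ∑ᶠ i, cc θ (f i) := by
  let _ : Fintype G := Fintype.ofFinite G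
  let _ : Fintype ι := Fintype.ofFinite ι
  unfold cc
  simp only [finsum_eq_sum_of_fintype]
  rw [← Finset.sum_div]
  congr 1
  rw [Finset.sum_comm]
  exact Finset.sum_congr rfl fun x _ => Finset.sum_mul ..

theorem GS4_cc_sub {G : Type} [Group G] [Finite G] (θ f g : G → ℂ) :
    cc θ (fun x => f x - g x) = cc θ f - cc θ g := by
  let _ : Fintype G := Fintype.ofFinite G
  unfold cc
  simp only [finsum_eq_sum_of_fintype]
  rw [← sub_div, ← Finset.sum_sub_distrib]
  congr 1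
  exact Finset.sum_congr rfl fun x _ => sub_mul ..

theorem GS4_cjcz {G : Type} [Group G] {Z : Subgroup G} {n : G} (hn : n ∈ nz Z) : cjS n (cz Z) = cz Z := by
  ext x
  rw [mem_cjS]
  constructor
  · intro h
    have h1 := cz_conj hn h
    have e : n * (n⁻¹ * x * n) * n⁻¹ = x := by group
    rwa [e] at h1
  · intro h
    have h1 := cz_conj ((nz Z).inv_mem hn) h
    rwa [inv_inv] at h1

theorem GS4_cjself {G : Type} [Group G] {Z : Subgroup G} {k : G} (hk : k ∈ cz Z) : cjS k Z = Z := by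
  ext x
  rw [mem_cjS]
  rw [Subgroup.mem_centralizer_iff] at hk
  constructor
  · intro h
    have h1 := hk _ h
    have e : x = k⁻¹ * x * k := by
      have h2 : k⁻¹ * x * k * k = k * (k⁻¹ * x * k) := h1
      have h3 : k * (k⁻¹ * x * k) = x * k := by group
      rw [h3] at h2
      exact (mul_right_cancel h2).symm
    rw [e]
    exact h
  · intro h
    have h1 := hk _ h
    have e : k⁻¹ * x * k = x := by
      rw [mul_assoc, h1]
      group
    rw [e]
    exact h

/-- **GS4**. -/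
theorem GS4 (hSBI : SBI_stmt) (hDCM : DCM_stmt) (hCLS : CLS_stmt) (hZNU : ZNU_stmt) (hZGP : ZGP_stmt) (hCJG : CJG_stmt)
    (_hTRN : TRN_stmt) (_hC3 : C3_stmt) : GS4_stmt := by
  classical
  intro p e m t M hS G _ _ χ Z z x hZD θ hθ n hn hSB k hk
  by_contra hnC
  obtain ⟨hθi, hθχ, z', x', hu', hz'⟩ := hθ
  have hp := hS.pr
  have _ : Fact p.Prime := ⟨hp⟩
  have hem : m.a + 3 ≤ e := by have := hZD.em; omega
  have uc := hZD.uc
  obtain ⟨z1, -, -, -, z5, z6, -, -⟩ := hZGP p e m.a hp hem G z uc.pe uc.od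
  obtain ⟨-, -, -, -, -, y6, -, -, y9⟩ := Pool.Agent.FI.SYL p G
  rw [hZD.zz] at z1 z5 z6
  set g₀ := z * x with hg₀
  have hcent : Subgroup.centralizer ({g₀} : Set G) ≤ cz Z := z6.1 x uc.re uc.co
  have hg₀C : g₀ ∈ cz Z := by
    refine z5.1 ?_
    rw [Subgroup.mem_centralizer_iff]
    intro w hw
    rw [Set.mem_singleton_iff] at hw
    rw [hw, hg₀, mul_assoc, uc.co]
  -- the quotient
  set C' : Subgroup (nz Z) := (cz Z).subgroupOf (nz Z) with hC'
  have _ : C'.Normal := ⟨fun c hc g => by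
    rw [hC', Subgroup.mem_subgroupOf] at hc ⊢
    exact cz_conj g.2 hc⟩
  let F : (nz Z ⧸ C') → ℂ := fun q => cc θ (cls (cz Z) ((q.out : G) * g₀ * (q.out : G)⁻¹))
  have hcl : ∀ h : nz Z, cls (cz Z) ((((QuotientGroup.mk h : nz Z ⧸ C').out : nz Z) : G) * g₀ *
      (((QuotientGroup.mk h : nz Z ⧸ C').out : nz Z) : G)⁻¹) = cls (cz Z) ((h : G) * g₀ * (h : G)⁻¹) := by
    intro h
    obtain ⟨c, hc⟩ := QuotientGroup.mk_out_eq_mul C' h
    rw [hc]
    refine cls_congr ⟨(h : G) * (c : G) * (h : G)⁻¹, cz_conj h.2 (Subgroup.mem_subgroupOf.1 c.2), ?_⟩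
    push_cast
    group
  have hFmk : ∀ h : nz Z, F (QuotientGroup.mk h) = cc θ (cls (cz Z) ((h : G) * g₀ * (h : G)⁻¹)) := fun h => by
    show cc θ (cls (cz Z) _) = _
    rw [hcl h]
  have hFi : ∀ q, IntAt M (F q) := fun q => IntAt.of_isIntegral hS (cc_cls_int le_rfl hθi _)
  have hFn : ∀ q, InM M (F ((QuotientGroup.mk (⟨n, hn⟩ : nz Z)) * q) - F q) := by
    intro q
    obtain ⟨h, rfl⟩ := QuotientGroup.mk_surjective q
    rw [← QuotientGroup.mk_mul, hFmk, hFmk]
    set w := (h : G) * g₀ * (h : G)⁻¹ with hw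
    have hwC : w ∈ cz Z := cz_conj h.2 hg₀C
    have e1 : ((⟨n, hn⟩ * h : nz Z) : G) * g₀ * ((⟨n, hn⟩ * h : nz Z) : G)⁻¹ = n * w * n⁻¹ := by
      rw [hw]
      push_cast
      group
    rw [e1]
    have h2 := (hCJG G M p n (cz Z)).2.2.1 θ w
    rw [show (cz Z).map (MulAut.conj n).toMonoidHom = cz Z from GS4_cjcz hn] at h2
    have h3 := SBIb hS hSB (cls_CF (cz_conj hn hwC)) (fun y => IntAt.of_isIntegral hS (cls_int _ _ _))
    rw [show cc (cjF n θ) (cls (cz Z) (n * w * n⁻¹)) = cc θ (cls (cz Z) w) from h2] at h3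
    have h4 := InM.neg h3
    rwa [neg_sub] at h4
  have hne : (QuotientGroup.mk (⟨n, hn⟩ : nz Z) : nz Z ⧸ C') ≠ 1 := by
    intro h
    rw [QuotientGroup.eq_one_iff] at h
    exact hnC (Subgroup.mem_subgroupOf.1 h)
  have hpk : (QuotientGroup.mk (⟨n, hn⟩ : nz Z) : nz Z ⧸ C') ^ p ^ k = 1 := by
    rw [← QuotientGroup.mk_pow, QuotientGroup.eq_one_iff, Subgroup.mem_subgroupOf]
    push_cast
    exact hk
  have hsum := GS4_orb hS F hFi _ hne k hpk hFn
  -- the class sum
  have hd := ((hDCM G (cz Z) M p hS).1 θ (fun y => cls (⊤ : Subgroup G) g₀ y -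
      ∑ᶠ q : nz Z ⧸ C', cls (cz Z) ((q.out : G) * g₀ * (q.out : G)⁻¹) y) ?_ ?_ ?_).2 ?_
  · rw [GS4_cc_sub θ (cls (⊤ : Subgroup G) g₀), GS4_cc_sum] at hd
    have h1 : InM M (cc θ (cls (⊤ : Subgroup G) g₀)) := by
      have := InM.add hS hd hsum
      rwa [sub_add_cancel] at this
    exact uc.ne (((hSBI p M hS G ⊤ θ χ hθχ).2 g₀ (Subgroup.mem_top _)).1 h1)
  · intro l hl y
    rw [cls_inv (Subgroup.mem_top l)]
    congr 1
    exact finsum_congr fun q => cls_inv hl _ _
  · intro y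
    exact IntAt.sub hS (IntAt.of_isIntegral hS (cls_int _ _ _)) (IntAt.finsum hS fun q => IntAt.of_isIntegral hS (cls_int _ _ _))
  · intro y
    exact IntAt.of_isIntegral hS (cc_cls_int le_rfl hθi _)
  · intro y
    by_cases hy : InM M (cc θ (cls (cz Z) y))
    · exact Or.inr hy
    left
    have hyC : y ∈ cz Z := by
      by_contra h
      rw [(hCLS G (cz Z) y).2.2.2.2.2.2.1 θ hθi.1 h] at hy
      exact hy (InM.zero hS)
    by_cases hg : ∃ g ∈ (⊤ : Subgroup G), g * g₀ * g⁻¹ = y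
    · obtain ⟨g, -, hgy⟩ := hg
      have e1 : (g * z * g⁻¹) * (g * x * g⁻¹) = y := by
        rw [← hgy, hg₀]
        group
      have hpe : PEl p (g * z * g⁻¹) := (y9 z g).2 uc.pe
      have hre : PReg p (g * x * g⁻¹) := (y9 x g).1 uc.re
      have hco : (g * z * g⁻¹) * (g * x * g⁻¹) = (g * x * g⁻¹) * (g * z * g⁻¹) := by
        have := uc.co
        calc (g * z * g⁻¹) * (g * x * g⁻¹) = g * (z * x) * g⁻¹ := by group
          _ = g * (x * z) * g⁻¹ := by rw [this]
          _ = _ := by group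
      have hmem := ((NEG p e hp G (g * z * g⁻¹)).2.2.2.1 (g * x * g⁻¹) hpe hre hco (cz Z)).2.2.2 (e1 ▸ hyC)
      have hod : orderOf (g * z * g⁻¹) = p ^ e := by
        rw [← uc.od]
        exact (orderOf_injective (MulAut.conj g).toMonoidHom (MulAut.conj g).injective z)
      have hU : Ucl p e m M (cz Z) θ (g * z * g⁻¹) (g * x * g⁻¹) :=
        ⟨hpe, hre, hco, hmem.1, hmem.2, hod, by rw [e1]; exact hy, hu'.df⟩
      obtain ⟨c, hc, ec⟩ := (hZNU p e m M hS hZD.em G (cz Z) θ hθi z' x' hu').1 _ _ hU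
      rw [hz', GS4_cjself hc, z1] at ec
      have hgN : g ∈ nz Z := by
        rw [Subgroup.mem_normalizer_iff]
        intro w
        have h1 : g * w * g⁻¹ ∈ cjS g Z ↔ w ∈ Z := by
          rw [mem_cjS]
          have : g⁻¹ * (g * w * g⁻¹) * g = w := by group
          rw [this]
        rw [ec] at h1
        exact h1.symm
      rw [cls_one ⟨g, Subgroup.mem_top g, hgy⟩, finsum_eq_single _ (QuotientGroup.mk (⟨g, hgN⟩ : nz Z) : nz Z ⧸ C')]
      · rw [hcl ⟨g, hgN⟩, cls_one ⟨1, (cz Z).one_mem, by rw [← hgy]; group⟩, sub_self]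
        exact InM.zero hS
      · intro q hq
        by_contra h0
        apply hq
        obtain ⟨c', hc', ec'⟩ := cls_ne h0
        have h1 : g⁻¹ * c' * (q.out : G) ∈ Subgroup.centralizer ({g₀} : Set G) := by
          rw [Subgroup.mem_centralizer_iff]
          intro w hw
          rw [Set.mem_singleton_iff] at hw
          rw [hw]
          have e2 : c' * ((q.out : G) * g₀ * (q.out : G)⁻¹) * c'⁻¹ = g * g₀ * g⁻¹ := by rw [ec', hgy]
          have e3 : c' * (q.out : G) * g₀ = g * g₀ * g⁻¹ * c' * (q.out : G) := by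
            rw [← e2]
            group
          calc g₀ * (g⁻¹ * c' * (q.out : G)) = g⁻¹ * (g * g₀ * g⁻¹ * c' * (q.out : G)) := by group
            _ = g⁻¹ * (c' * (q.out : G) * g₀) := by rw [e3]
            _ = g⁻¹ * c' * (q.out : G) * g₀ := by group
        have h2 : g⁻¹ * c' * (q.out : G) ∈ cz Z := hcent h1
        have h3 : g⁻¹ * c'⁻¹ * g ∈ cz Z := by
          have := cz_conj ((nz Z).inv_mem hgN) ((cz Z).inv_mem hc')
          rwa [inv_inv] at this
        have h4 : g⁻¹ * (q.out : G) ∈ cz Z := by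
          have := (cz Z).mul_mem h3 h2
          have e4 : g⁻¹ * c'⁻¹ * g * (g⁻¹ * c' * (q.out : G)) = g⁻¹ * (q.out : G) := by group
          rwa [e4] at this
        have h5 : (QuotientGroup.mk (⟨g, hgN⟩ : nz Z) : nz Z ⧸ C') = QuotientGroup.mk q.out := by
          rw [QuotientGroup.eq, Subgroup.mem_subgroupOf]
          push_cast
          exact h4
        rw [h5]
        exact (QuotientGroup.out_eq' q).symm
    · rw [cls_zero hg, finsum_eq_zero_of_forall_eq_zero, sub_zero]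
      · exact InM.zero hS
      · intro q
        refine cls_zero fun h => hg ?_
        obtain ⟨l, -, hl⟩ := h
        exact ⟨l * (q.out : G), Subgroup.mem_top _, by rw [← hl]; group⟩

end Pool.Agent.ND.NY
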