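import Pool.Agent.helper37.ND.All
import Pool.Agent.helper7.ZB.FinZ2
import Pool.Agent.helper7.ZD.Spec
import Pool.Agent.helper43.ZD.YE1
import Pool.Agent.helper79.ZD.ZGD
import Pool.Agent.helper68.ZD.NUB
import Pool.Agent.helper23.ZD.NUD
import Pool.Agent.helper23.ZD.NUH
import Pool.Agent.helper23.ZD.NLQ
import Pool.Agent.helper27.ZD.NUE
import Pool.Agent.helper15.ZD.NUF
import Pool.Agent.helper7.ZD.ZNU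
import Pool.Agent.helper7.ZD.GBC
import Pool.Agent.helper7.ZD.GUC
import Pool.Agent.helper7.ZD.GSP
import Pool.Agent.helper7.ZD.GIM
import Pool.Agent.helper7.ZD.GST
import Pool.Agent.helper7.ZD.GOS
import Pool.Agent.helper7.ZD.GS4
import Pool.Agent.helper7.ZD.GFX
import Pool.Agent.helper7.ZD.GAC
import Pool.Agent.helper7.ZD.GGR
import Pool.Agent.helper7.ZD.GOU
import Pool.Agent.helper7.ZD.GSY
import Pool.Agent.helper7.ZD.GVF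
import Pool.Agent.helper7.ZD.GNV
import Pool.Agent.helper7.ZD.GDF
import Pool.Agent.helper7.ZD.GC1
import Pool.Agent.helper7.ZD.GEV
import Pool.Agent.helper7.ZD.GQQ
import Pool.Agent.helper72.ZD.GKQ
import Pool.Agent.helper23.ZD.TDC
import Pool.Agent.helper39.ZD.GKE
import Pool.Agent.helper40.ZD.TDI
import Pool.Agent.helper29.ZD.TDL
import Pool.Agent.helper61.ZD.TDF

/-!
# MP_baa4d7_al, THEOREM ZD: all rows without hypotheses (specification: `helper7/ZD/Spec`)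
-/

set_option autoImplicit false

namespace Pool.Agent.ND.NY.All

open Pool.Agent.helper58.DC Pool.Agent.DI Pool.Agent.GR Pool.Agent.OB Pool.Agent.DR Pool.Agent.FI Pool.Agent.FI3 Pool.Agent.FI4 Pool.Agent.FI4I Pool.Agent.FI4E Pool.Agent.LE Pool.Agent.L5 Pool.Agent.NAB
open Pool.Agent.ZB (Pm Om KZ EQ BQ lQ MZc BDK)
open Pool.Agent.ND.All

theorem zZHE : Pool.Agent.ZB.ZHE_stmt := Pool.Agent.ZB.ZHE Pool.Agent.GB.AllG.gZHE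
theorem zZQD : Pool.Agent.ZB.ZQD_stmt := Pool.Agent.ZB.ZQD Pool.Agent.GB.AllG.gZHE
theorem zZE1 : Pool.Agent.ZB.ZE1_stmt := Pool.Agent.ZB.ZE1
theorem zZE2 : Pool.Agent.ZB.ZE2_stmt := Pool.Agent.ZB.ZE2 zZE1
theorem zZUB : Pool.Agent.ZB.ZUB_stmt := Pool.Agent.ZB.ZUB Pool.Agent.FI.AllA.dSBI Pool.Agent.FI.AllA.dCJG
theorem zZBC : Pool.Agent.ZB.ZBC_stmt := Pool.Agent.ZB.ZBC zZUB zZE2 Pool.Agent.FI.AllA.dCJG Pool.Agent.FI.AllQ.qQCJ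
    Pool.Agent.FI.AllA.dTRN Pool.Agent.GR.All.dB2
theorem zZUE : Pool.Agent.ZB.ZUE_stmt := Pool.Agent.ZB.ZUE FI.AllA.dDUN zZE2
theorem zZUH : Pool.Agent.ZB.ZUH_stmt := Pool.Agent.ZB.ZUH zZHE zZE2
theorem zZUX : Pool.Agent.ZB.ZUX_stmt := Pool.Agent.ZB.ZUX DR.All.rCFA NAB.All.aNFV FI.AllA.dEXB FI.AllA.dTRN
theorem zZXU : Pool.Agent.ZB.ZXU_stmt := Pool.Agent.ZB.ZXU zZUH zZE1 zZE2 FI.AllA.dDEX FI.AllA.dDGL FI.AllA.dEXB FI.AllA.dCNTL FI.AllA.dTRN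
theorem zZQU : Pool.Agent.ZB.ZQU_stmt := Pool.Agent.ZB.ZQU zZHE zZQD zZUB zZUH NAB.All.aNQ5 zZE1 zZE2 FI.AllA.dTRN
theorem zZTK : Pool.Agent.ZB.ZTK_stmt := Pool.Agent.ZB.ZTK FI4I.AllI.iTR2 FI4I.AllI.iTR3
theorem zZTI : Pool.Agent.ZB.ZTI_stmt := Pool.Agent.ZB.ZTI zZE1 zZTK FI4I.AllI.iTR1 FI4I.AllI.iTR2 FI4I.AllI.iTR3 FI4I.AllI.iTR4 NAB.All.xTRE FI.AllA.dTPR
theorem zZTC : Pool.Agent.ZB.ZTC_stmt := Pool.Agent.ZB.ZTC zZUH zZE1 zZBC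
theorem zZTL : Pool.Agent.ZB.ZTL_stmt := Pool.Agent.ZB.ZTL DR.All.rCFA NAB.All.aNFV FI.AllA.dCNTL
theorem zZTP : Pool.Agent.ZB.ZTP_stmt := Pool.Agent.ZB.ZTP zZUX FI.AllA.dDEX zZUH zZE1 FI.AllA.dTRN FI.AllA.dTPR
theorem zZLC : Pool.Agent.ZB.ZLC_stmt := Pool.Agent.ZB.ZLC NAB.All.aNPA zZTI zZTC zZUH zZUX zZE1 FI.AllA.dDEX FI.AllA.dTRN FI.AllA.dTPR FI4.AllK.kLBN FI.AllC.cFBC GR.All.dB2
theorem zZMN : Pool.Agent.ZB.ZMN_stmt := (Pool.Agent.ZB.All.AllT zZHE zZQD zZBC).1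

theorem yYE1 : YE1_stmt := NY.YE1 zZE1
theorem yZGD : NY.ZGD_stmt := NY.ZGD nZGP
theorem yNUB : NY.NUB_stmt := NY.NUB NAB.All.aNUB zZUB yYE1
theorem yNUD : NY.NUD_stmt := NY.NUD NAB.All.aNUC FI.AllA.dDUN zZUB yYE1
theorem yNUH : NY.NUH_stmt := NY.NUH NAB.All.aNUH zZHE FI.AllA.dDEX yYE1
theorem yNLQ : NY.NLQ_stmt := NY.NLQ FI.AllA.dCNTL
theorem yNUE : NY.NUE_stmt := NY.NUE yNUD FI.AllA.dDUN yYE1 zZE2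
theorem yNUF : NY.NUF_stmt := NY.NUF yNUE FI.AllA.dSBI FI.AllA.dDCM FI.AllA.dCLS GR.All.dCCI FI.AllA.dSYL NAB.All.aNEG
theorem yZNU : NY.ZNU_stmt := NY.ZNU yNUD FI.AllA.dDEX yZGD nZGP
theorem yGBC : NY.GBC_stmt := NY.GBC yNUB FI.AllA.dCJG nZGP FI.AllA.dTPR FI.AllA.dTRN GR.All.dB2 FI.AllC.cFEQ
theorem yGUC : NY.GUC_stmt := NY.GUC FI.AllA.dEXB FI.AllA.dTRN yNUH yNUB yZNU nZGP yNLQ
theorem yGSP : NY.GSP_stmt := NY.GSP nGVN yNUD yZGD nZGP nZLM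
theorem yGIM : NY.GIM_stmt := NY.GIM nKIP nAVG FI.AllA.dDUN yNUD yZGD nZLM GR.All.dB2
theorem yGST : NY.GST_stmt := NY.GST yGIM nGIL nGRT nZLM GR.All.dB2 GR.All.dEXP FI.AllQ.qQEI FI.AllC.cFBC yNUB FI.AllA.dTRN
theorem yGOS : NY.GOS_stmt := NY.GOS nZGP nZLM yGST FI.AllA.dCLS
theorem yGS4 : NY.GS4_stmt := NY.GS4 FI.AllA.dSBI FI.AllA.dDCM FI.AllA.dCLS yZNU nZGP FI.AllA.dCJG FI.AllA.dTRN GR.All.dC3
theorem yGFX : NY.GFX_stmt := NY.GFX yGS4 yGST nGOB nZLM nZGP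
theorem yGAC : NY.GAC_stmt := NY.GAC yGFX yGOS nGOB yGST yGBC
theorem yGGR : NY.GGR_stmt := NY.GGR nGKR yGSP yGST GR.All.dB2 FI.AllA.dCJG FI.AllA.dTRN
theorem yGOU : NY.GOU_stmt := NY.GOU yGGR yGUC yGBC DR.AllDI.iB3 GR.All.dB2 FI.AllQ.qQRS yGST
theorem yGSY : NY.GSY_stmt := NY.GSY nZGP yGGR yGSP yGUC yGBC nGOB FI.AllQ.qQRS GR.All.dBR0 GR.All.dB2
theorem yGVF : NY.GVF_stmt := NY.GVF FI.AllA.dBRY GR.All.dBR0 GR.All.dSFC GR.All.dPPT GR.All.dB2 FI.AllA.dEXB FI.AllA.dTRN FI.AllA.dSYL FI.AllA.dDEX yGST nGVN yNUH yZNU nZLM nZGP yGUC yGBC yNLQ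
theorem yGNV : NY.GNV_stmt := NY.GNV yGVF yGST FI.AllA.dCLS
theorem yGDF : NY.GDF_stmt := NY.GDF GR.All.dB2 FI.AllA.dCLS GR.All.dC3
theorem yGC1 : NY.GC1_stmt := NY.GC1 nKC1 yGAC yGSY nZGP
theorem yGEV : NY.GEV_stmt := NY.GEV yGFX yGOS nGOB yGST yGBC nZGP
theorem yGQQ : NY.GQQ_stmt := NY.GQQ yGC1 yGEV nGCL yGOU nGOB yZNU yNUB nZGP FI.AllA.dCJG DR.AllDI.iB3 GR.All.dB2 FI.AllQ.qQRS
theorem yGKQ : NY.GKQ_stmt := NY.GKQ FI.AllA.dEXB FI.AllA.dTRN FI.AllA.dCNTL FI.AllA.dDEX FI.AllA.dDGL zZUH zZE1 zZQU FI.AllA.dSYL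
theorem yTDC : NY.TDC_stmt := NY.TDC zZUH zZE1 zZUB zZE2 FI.AllA.dCJG
theorem yGKE : NY.GKE_stmt := NY.GKE nGKN yGKQ zZLC zZQU yTDC FI.AllA.dCNTL FI.AllA.dSYL FI.AllA.dTPR GR.All.dB2
theorem yTDI : NY.TDI_stmt := NY.TDI zZTK zZE1 FI4I.AllI.iTR1 FI4I.AllI.iTR2 FI4I.AllI.iTR3 FI.AllA.dTPR GR.All.dB2
theorem yTDL : NY.TDL_stmt := NY.TDL NAB.AllE.eXPB yTDI yTDC zZUH zZUX zZE1 FI.AllA.dDEX FI.AllA.dTRN FI.AllA.dTPR GR.All.dB2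
theorem yTDF : NY.TDF_stmt := NY.TDF yTDL zZTL zZTP NAB.All.aNTG FI.AllC.cFT0 FI.AllC.cFNO zZE1 GR.All.dB2

end Pool.Agent.ND.NY.All
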