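import Pool.Agent.helper7.ZB.DefsZ

/-!
# Blocks whose defect group has a central subgroup of bounded index and rank with a dominating invariant: the definition for the statement
-/

set_option autoImplicit false

namespace Pool.Agent.ZBS

variable {G : Type} [Group G]

/-- `D` has a central subgroup `Z` of index at most `p ^ a` and rank at most `r` such that for some `s ≥ a` at most `p`
elements of `Z` of order dividing `p` are `p ^ (s - a)`-th powers of elements of `Z`, and the exponent of `Z` is larger than
`p ^ (s + boundExp p a r + 1)`. For `Z` the direct product of cyclic groups of orders `p ^ n₁ ≥ p ^ n₂ ≥ ...` this says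
`n₂ ≤ s - a` and `s + boundExp p a r + 1 < n₁`. -/
def DominatingCentre (p : ℕ) (D : Subgroup G) : Prop :=
  ∃ a r s : ℕ, a ≤ s ∧ ∃ Z : Subgroup G, CentralRank p a r D Z ∧
    {y : G | y ^ p = 1 ∧ ∃ z ∈ Z, z ^ p ^ (s - a) = y}.ncard ≤ p ∧ ∃ z ∈ Z, z ^ p ^ (s + boundExp p a r + 1) ≠ 1

end Pool.Agent.ZBS
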