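import Pool.Agent.helper7.ZD.DefsY
import Pool.Agent.helper7.ZD.AllY

/-!
# MP_baa4d7_al, THEOREM ZD: the final theorem (every `d`; `E_B / E[B]` cyclic of order prime to `p`)
-/

set_option autoImplicit false

namespace Pool.Agent.ZBS

open Pool.Agent.helper58.DC Pool.Agent.DI Pool.Agent.GR Pool.Agent.OB Pool.Agent.DR Pool.Agent.FI Pool.Agent.FI3 Pool.Agent.FI4
open Pool.Agent.ZB (Om Pm BDK KZ)

theorem boundExp_ge (p a r : ℕ) (hr : 1 ≤ r) : a + 4 ≤ boundExp p a r + 1 := by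
  have h1 : 3 * (1 + 2 * (a + 2 * a * 1)) ≤ (r + 2) * (r * (r + 1) / 2 + 2 * (a + 2 * a * r)) := by
    refine Nat.mul_le_mul (by omega) (Nat.add_le_add ?_ (Nat.mul_le_mul_left 2 (Nat.add_le_add_left (Nat.mul_le_mul_left _ hr) a)))
    have h2 : 1 * (1 + 1) ≤ r * (r + 1) := Nat.mul_le_mul hr (by omega)
    omega
  unfold boundExp
  omega

/-- `E = G`, every `d`. -/
theorem everyd0 {p : ℕ} {M : Ideal (integralClosure ℤ ℂ)} (hS : Setup p M) (d : ℤ)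
    (G : Type) [Group G] [Finite G] (hO : IsOp p (⊤ : Subgroup G) ⊥) (χ : G → ℂ) (hχ : χ ∈ Irr G) (D : Subgroup G)
    (hD : Pool.Agent.MAP.DefectGroup p M χ D) (hL : DominatingCentre p D) : altSum (trivE G) p M χ d ⊤ = 0 := by
  obtain ⟨a, r, s, has, Z, hZ, hOm, hz⟩ := hL
  refine Pool.Agent.ND.NY.NDQ Pool.Agent.ND.NY.All.yTDF Pool.Agent.ND.NY.All.yGKD Pool.Agent.ND.NY.All.zZMN Pool.Agent.FI.AllA.dCLS
    Pool.Agent.FI.AllA.dTPR p M hS a r s (boundExp p a r + 1) has (boundExp_ge p a r hZ.pos) ?_ G χ hχ D hD Z hZ.le hZ.central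
    hZ.index hZ.rank hOm hz hO d
  intro κ h1 h2 _ G' _ _ L ψ hψ D' y' hD' hK'
  obtain ⟨l, h3, h4, h5⟩ := bdk (Pool.Agent.GB.AllL.lBLP p) hS a r hZ.pos κ h1 h2 G' L ψ hψ D' y' hD' hK'
  exact ⟨l, h3, h4, h5.trans (Nat.pow_le_pow_right hS.pr.pos (Nat.le_succ _))⟩

theorem her_dom (p : ℕ) : Pool.Agent.XD.Her (fun G _ D => DominatingCentre p (G := G) D) := by
  rintro G E _ _ i hi D ⟨a, r, s, has, Z, hZ, hOm, z, hz, hz1⟩
  have hcard : ∀ H : Subgroup G, Nat.card (H.map i) = Nat.card H := fun H =>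
    (Nat.card_congr (H.equivMapOfInjective i hi).toEquiv).symm
  have himg : ∀ n : ℕ, {y : E | y ^ p = 1 ∧ ∃ z ∈ Z.map i, z ^ n = y} = i '' {y : G | y ^ p = 1 ∧ ∃ z ∈ Z, z ^ n = y} := by
    intro n
    ext u
    constructor
    · rintro ⟨h2, _, ⟨y, hy, rfl⟩, rfl⟩
      refine ⟨y ^ n, ⟨hi ?_, y, hy, rfl⟩, by rw [map_pow]⟩
      rw [map_pow, map_pow, h2, map_one]
    · rintro ⟨_, ⟨h2, y, hy, rfl⟩, rfl⟩
      refine ⟨?_, i y, ⟨y, hy, rfl⟩, by rw [map_pow]⟩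
      rw [← map_pow, h2, map_one]
  refine ⟨a, r, s, has, Z.map i, ⟨hZ.pos, Subgroup.map_mono hZ.le, ?_, ?_, ?_⟩, ?_, i z, ⟨z, hz, rfl⟩, ?_⟩
  · rintro _ ⟨y, hy, rfl⟩ _ ⟨x, hx, rfl⟩
    rw [← map_mul, ← map_mul, hZ.central y hy x hx]
  · rw [hcard, hcard]
    exact hZ.index
  · have h1 : {u : E | u ∈ Z.map i ∧ u ^ p = 1} = i '' {u : G | u ∈ Z ∧ u ^ p = 1} := by
      ext u
      constructor
      · rintro ⟨⟨y, hy, rfl⟩, h2⟩
        refine ⟨y, ⟨hy, hi ?_⟩, rfl⟩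
        rw [map_pow, h2, map_one]
      · rintro ⟨y, ⟨hy, h2⟩, rfl⟩
        refine ⟨⟨y, hy, rfl⟩, ?_⟩
        rw [← map_pow, h2, map_one]
    rw [h1, Set.ncard_image_of_injective _ hi]
    exact hZ.rank
  · rw [himg, Set.ncard_image_of_injective _ hi]
    exact hOm
  · intro h
    rw [← map_pow] at h
    exact hz1 (hi (by rw [h, map_one]))

/-- THEOREM ZD: Dade's conjecture for every `d` for blocks whose defect group has a dominating centre. -/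
theorem everyd (p : ℕ) (hpr : p.Prime) (M : Ideal (integralClosure ℤ ℂ)) (hM : M.IsMaximal)
    (hp : (p : integralClosure ℤ ℂ) ∈ M) (G : Type) [Group G] [Finite G] (hG : IsOp p (⊤ : Subgroup G) ⊥)
    (χ : G → ℂ) (hχ : χ ∈ Irr G) (D : Subgroup G) (hD : Pool.Agent.MAP.DefectGroup p M χ D) (hL : DominatingCentre p D)
    (E A : Type) [Group E] [Group A] [Finite E] (X : Extension G E A) (s : A) (n : ℕ)
    (hsn : s ^ n ∈ Pool.Agent.BQ.AI X M χ) (hpn : ¬ p ∣ n)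
    (hs : ∀ a ∈ Pool.Agent.BQ.AB X M χ, ∃ k : ℤ, s ^ k * a ∈ Pool.Agent.BQ.AI X M χ) (d : ℤ) (U : Subgroup A) :
    altSum X p M χ d U = 0 :=
  Pool.Agent.XD.main ⟨hpr, hM, hp⟩ (Pool.Agent.XD.Fun_eval d) (her_dom p)
    (fun G' _ _ hO' χ' hχ' D' hD' hP' => everyd0 ⟨hpr, hM, hp⟩ d G' hO' χ' hχ' D' hD' hP') G hG χ hχ D hD hL E A X s n hsn hpn hs U

end Pool.Agent.ZBS
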