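import Pool.Agent.helper7.ZD.Spec
import Pool.Agent.helper37.ND.GKR
import Pool.Agent.helper7.ZD.GOS

/-!
# ZD port (script) of: MP_baa4d7_al, THEOREM ND, row GVF: the value of a character at the unit class
-/

set_option autoImplicit false

namespace Pool.Agent.ND.NY

open Pool.Agent.helper58.DC Pool.Agent.DI Pool.Agent.GR Pool.Agent.OB Pool.Agent.DR Pool.Agent.FI Pool.Agent.FI3 Pool.Agent.FI4 Pool.Agent.FI4I Pool.Agent.LE Pool.Agent.L5 Pool.Agent.NAB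
open Pool.Agent.ZB (Pm Om KZ EQ BQ lQ MZc BDK)

/-- Sum over the class of `z` in `H`. -/
theorem GVF_orb {G : Type} [Group G] [Finite G] (H : Subgroup G) (z : G) (S : Set G) (w : G → ℂ)
    (hS : ∀ h ∈ H, h * z * h⁻¹ ∈ S) (hw : ∀ h ∈ H, w (h * z * h⁻¹) = w z)
    (h0 : ∀ y ∈ S, (∀ h ∈ H, h * z * h⁻¹ ≠ y) → w y = 0) :
    (Nat.card (Cz H z) : ℂ) * ∑ᶠ y ∈ S, w y = (Nat.card H : ℂ) * w z := by
  classical
  have : Fintype G := Fintype.ofFinite G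
  have hfS : S.Finite := Set.toFinite S
  have e1 : (Nat.card H : ℂ) * w z = ∑ h ∈ (H : Set G).toFinset, w (h * z * h⁻¹) := by
    rw [Finset.sum_congr rfl (fun h hh => hw h (Set.mem_toFinset.1 hh)), Finset.sum_const, nsmul_eq_mul, Set.toFinset_card,
      ← Nat.card_eq_fintype_card]
    rfl
  have e2 : ∀ h ∈ (H : Set G).toFinset, w (h * z * h⁻¹) = ∑ y ∈ hfS.toFinset, if h * z * h⁻¹ = y then w y else 0 := by
    intro h hh
    rw [Finset.sum_ite_eq, if_pos]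
    rw [Set.Finite.mem_toFinset]
    exact hS h (Set.mem_toFinset.1 hh)
  rw [e1, Finset.sum_congr rfl e2, Finset.sum_comm, finsum_mem_eq_finite_toFinset_sum _ hfS, Finset.mul_sum]
  refine Finset.sum_congr rfl fun y hy => ?_
  rw [Set.Finite.mem_toFinset] at hy
  by_cases hc : ∃ h ∈ H, h * z * h⁻¹ = y
  · obtain ⟨k, hk, rfl⟩ := hc
    rw [← Finset.sum_filter, Finset.sum_const, nsmul_eq_mul]
    congr 2
    have e3 : Nat.card (Cz H z) = ((Cz H z : Subgroup G) : Set G).toFinset.card := by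
      rw [Set.toFinset_card, ← Nat.card_eq_fintype_card]
      rfl
    rw [e3]
    refine Finset.card_nbij' (i := fun c => k * c) (j := fun h => k⁻¹ * h) ?_ ?_ ?_ ?_
    · intro c hc
      have hc' : c ∈ Cz H z := Set.mem_toFinset.1 hc
      have h2 : z * c = c * z := Subgroup.mem_centralizer_iff.1 hc'.2 z rfl
      simp only [Finset.coe_filter, Set.mem_toFinset, SetLike.mem_coe, Set.mem_ofPred_eq]
      refine ⟨H.mul_mem hk hc'.1, ?_⟩
      calc k * c * z * (k * c)⁻¹ = k * (c * z) * c⁻¹ * k⁻¹ := by group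
        _ = k * (z * c) * c⁻¹ * k⁻¹ := by rw [h2]
        _ = _ := by group
    · intro h hh
      simp only [Finset.coe_filter, Set.mem_toFinset, SetLike.mem_coe, Set.mem_ofPred_eq] at hh
      simp only [Set.coe_toFinset, SetLike.mem_coe]
      refine ⟨H.mul_mem (H.inv_mem hk) hh.1, ?_⟩
      change k⁻¹ * h ∈ Subgroup.centralizer {z}
      rw [Subgroup.mem_centralizer_iff]
      intro x hx
      rw [Set.mem_singleton_iff.1 hx]
      have h2 : h * z = k * z * k⁻¹ * h := by rw [← hh.2]; group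
      calc z * (k⁻¹ * h) = k⁻¹ * (k * z * k⁻¹ * h) := by group
        _ = k⁻¹ * (h * z) := by rw [h2]
        _ = k⁻¹ * h * z := by group
    · intro c _
      group
    · intro h _
      group
  · have hne : ∀ h ∈ H, h * z * h⁻¹ ≠ y := fun h hh he => hc ⟨h, hh, he⟩
    rw [h0 y hy hne, mul_zero]
    symm
    refine Finset.sum_eq_zero fun h _ => ?_
    split_ifs <;> rfl

/-- The sum over `H` of the kernel localises at the section of `z`. -/
theorem GVF_loc (hBR0 : BR0_stmt) (hSFC : SFC_stmt) (hPPT : PPT_stmt) (hSYL : SYL_stmt) {p : ℕ}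
    {M : Ideal (integralClosure ℤ ℂ)} (hM : Setup p M) {G : Type} [Group G] [Finite G] {H : Subgroup G}
    {S : Set (G → ℂ)} (hS : BC M H S) {z x : G} (hz : PEl p z) (hx : PReg p x) (hc : Commute z x) (hzH : z ∈ H) (hxH : x ∈ H)
    (ψ : G → ℂ) (hψ : ∀ h ∈ H, ∀ g, ψ (h * g * h⁻¹) = ψ g) :
    (Nat.card (Cz H z) : ℂ) * ∑ᶠ b ∈ (H : Set G), Sf S (z * x) b * ψ b =
      (Nat.card H : ℂ) * ∑ᶠ v ∈ {v : G | v ∈ Cz H z ∧ PReg p v}, Sf S (z * x) (z * v) * ψ (z * v) := by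
  have : Fact p.Prime := ⟨hM.pr⟩
  rw [hPPT p hM.pr G H (fun b => Sf S (z * x) b * ψ b)]
  refine GVF_orb H z {y : G | y ∈ H ∧ PEl p y} (fun y => ∑ᶠ v ∈ {v : G | v ∈ Cz H y ∧ PReg p v}, Sf S (z * x) (y * v) * ψ (y * v)) ?_ ?_ ?_
  · intro h hh
    exact ⟨H.mul_mem (H.mul_mem hh hzH) (H.inv_mem hh), ((hSYL p G).2.2.2.2.2.2.2.2 z h).2 hz⟩
  · intro h hh
    symm
    refine finsum_mem_eq_of_bijOn (fun v => h * v * h⁻¹) ⟨?_, ?_, ?_⟩ ?_
    · rintro v ⟨⟨hv1, hv2⟩, hv3⟩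
      refine ⟨⟨H.mul_mem (H.mul_mem hh hv1) (H.inv_mem hh), ?_⟩, ((hSYL p G).2.2.2.2.2.2.2.2 v h).1 hv3⟩
      have hv2' : v ∈ Subgroup.centralizer {z} := hv2
      rw [Subgroup.mem_centralizer_iff] at hv2'
      change h * v * h⁻¹ ∈ Subgroup.centralizer {h * z * h⁻¹}
      rw [Subgroup.mem_centralizer_iff]
      intro y hy
      rw [Set.mem_singleton_iff.1 hy]
      have h2 := hv2' z rfl
      calc h * z * h⁻¹ * (h * v * h⁻¹) = h * (z * v) * h⁻¹ := by group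
        _ = h * (v * z) * h⁻¹ := by rw [h2]
        _ = _ := by group
    · intro a _ b _ hab
      have hab' : h * a * h⁻¹ = h * b * h⁻¹ := hab
      exact mul_left_cancel (mul_right_cancel hab')
    · rintro v ⟨⟨hv1, hv2⟩, hv3⟩
      refine ⟨h⁻¹ * v * h, ⟨⟨H.mul_mem (H.mul_mem (H.inv_mem hh) hv1) hh, ?_⟩, ?_⟩, ?_⟩
      · have hv2' : v ∈ Subgroup.centralizer {h * z * h⁻¹} := hv2
        rw [Subgroup.mem_centralizer_iff] at hv2'
        change h⁻¹ * v * h ∈ Subgroup.centralizer {z}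
        rw [Subgroup.mem_centralizer_iff]
        intro y hy
        rw [Set.mem_singleton_iff.1 hy]
        have h2 := hv2' (h * z * h⁻¹) rfl
        calc z * (h⁻¹ * v * h) = h⁻¹ * (h * z * h⁻¹ * v) * h := by group
          _ = h⁻¹ * (v * (h * z * h⁻¹)) * h := by rw [h2]
          _ = _ := by group
      · have h3 := ((hSYL p G).2.2.2.2.2.2.2.2 v h⁻¹).1 hv3
        rwa [inv_inv] at h3
      · change h * (h⁻¹ * v * h) * h⁻¹ = v
        group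
    · intro v _
      have h1 : h * z * h⁻¹ * (h * v * h⁻¹) = h * (z * v) * h⁻¹ := by group
      change _ = Sf S (z * x) (h * z * h⁻¹ * (h * v * h⁻¹)) * ψ (h * z * h⁻¹ * (h * v * h⁻¹))
      rw [h1, ((hSFC G H S hS.sub).1 (z * x) (z * v) h hh).2, hψ h hh]
  · rintro y ⟨hy1, hy2⟩ hne
    refine finsum_mem_eq_zero_of_forall_eq_zero fun v hv => ?_
    obtain ⟨⟨hv1, hv2⟩, hv3⟩ := hv
    have h2 : y * v = v * y := by
      have hv2' : v ∈ Subgroup.centralizer {y} := hv2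
      rw [Subgroup.mem_centralizer_iff] at hv2'
      exact hv2' y rfl
    rw [hBR0 p M hM G H S hS z hzH x hxH y hy1 v hv1 hz hy2 hx hv3 hc h2 (fun h hh he => hne h⁻¹ (H.inv_mem hh) (by rw [inv_inv]; exact he)),
      zero_mul]

/-- Exchange of the sums. -/
theorem GVF_sw {G : Type} [Group G] [Finite G] (H : Subgroup G) {S : Set (G → ℂ)} (hS : S.Finite) (g : G) (ψ : G → ℂ) :
    ∑ᶠ b ∈ (H : Set G), Sf S g b * ψ b = (Nat.card H : ℂ) * ∑ᶠ φ ∈ S, φ g * mt H ψ φ := by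
  classical
  have : Fintype G := Fintype.ofFinite G
  have hH : (Nat.card H : ℂ) ≠ 0 := by exact_mod_cast Nat.card_pos.ne'
  have hfH : (H : Set G).Finite := Set.toFinite _
  rw [finsum_mem_eq_finite_toFinset_sum _ hS, Finset.mul_sum, finsum_mem_eq_finite_toFinset_sum _ hfH]
  unfold Sf FI.mt
  have e1 : ∀ b : G, ∑ᶠ φ ∈ S, φ g * φ b⁻¹ = ∑ φ ∈ hS.toFinset, φ g * φ b⁻¹ := fun b => finsum_mem_eq_finite_toFinset_sum _ hS
  simp only [e1, finsum_mem_eq_finite_toFinset_sum _ hfH, Finset.sum_mul]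
  rw [Finset.sum_comm]
  refine Finset.sum_congr rfl fun φ _ => ?_
  rw [mul_left_comm, mul_div_cancel₀ _ hH, Finset.mul_sum]
  refine Finset.sum_congr rfl fun b _ => ?_
  ring

theorem GVF (hBRY : BRY_stmt) (hBR0 : BR0_stmt) (hSFC : SFC_stmt) (hPPT : PPT_stmt) (hB2 : B2_stmt) (hEXB : EXB_stmt)
    (hTRN : TRN_stmt) (hSYL : SYL_stmt) (hDEX : DEX_stmt) (hGST : GST_stmt) (hGVN : GVN_stmt) (hNUH : NUH_stmt)
    (hZNU : ZNU_stmt) (hZLM : ZLM_stmt) (hZGP : ZGP_stmt) (hGUC : GUC_stmt) (hGBC : GBC_stmt) (hNLQ : NLQ_stmt) : GVF_stmt := by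
  intro p e m t M hM G _ _ χ Z z x hZ L hCL ψ hψ
  classical
  have hem := hZ.em
  have hu := hZ.uc
  obtain ⟨hg1, hg2, hg3, hg4, hg5, hg6, hg7, hg8⟩ := hZGP p e m.a hM.pr (by omega) G z hu.pe hu.od
  rw [hZ.zz] at hg2 hg3 hg4 hg5 hg6 hg7
  have hcz : Subgroup.centralizer ({z} : Set G) ≤ cz Z := hg5.1
  have hcom : Commute z x := hu.co
  have hzz : z ∈ Subgroup.centralizer ({z} : Set G) := by
    rw [Subgroup.mem_centralizer_iff]
    intro y hy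
    rw [Set.mem_singleton_iff.1 hy]
  have hxz : x ∈ Subgroup.centralizer ({z} : Set G) := by
    rw [Subgroup.mem_centralizer_iff]
    intro y hy
    rw [Set.mem_singleton_iff.1 hy]
    exact hu.co
  have hzC : z ∈ cz Z := hcz hzz
  have hxC : x ∈ cz Z := hcz hxz
  have hCzC : Cz (cz Z) z = Subgroup.centralizer ({z} : Set G) := by
    unfold Cz
    exact inf_eq_right.2 hcz
  have hCzL : Cz L z = Subgroup.centralizer ({z} : Set G) := by
    unfold Cz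
    exact inf_eq_right.2 (hcz.trans hCL)
  have hψI : ψ ∈ IrrOn L := hψ.1
  have hψc : ∀ h ∈ L, ∀ g, ψ (h * g * h⁻¹) = ψ g := fun h hh g => ((hB2 G L).2 ψ hψI).2.1 g h hh
  have hbcL : BC M L (GS p e m M χ L Z) := (hGBC p e m M hM (by omega) G χ L Z).1
  have hbcC := GKR_bc (M := M) hTRN hB2 hCL (GS p e m M χ L Z)
  -- both sums localise
  have l1 := GVF_loc hBR0 hSFC hPPT hSYL hM hbcL hu.pe hu.re hcom (hCL hzC) (hCL hxC) ψ hψc
  have l2 := GVF_loc hBR0 hSFC hPPT hSYL hM hbcC hu.pe hu.re hcom hzC hxC ψ (fun h hh g => hψc h (hCL hh) g)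
  rw [hCzL] at l1
  rw [hCzC] at l2
  have l3 : ∑ᶠ v ∈ {v : G | v ∈ Subgroup.centralizer ({z} : Set G) ∧ PReg p v}, Sf (GS p e m M χ L Z) (z * x) (z * v) * ψ (z * v) =
      ∑ᶠ v ∈ {v : G | v ∈ Subgroup.centralizer ({z} : Set G) ∧ PReg p v},
        Sf {φ | φ ∈ IrrOn (cz Z) ∧ ∃ ψ ∈ GS p e m M χ L Z, SB M L φ ψ} (z * x) (z * v) * ψ (z * v) := by
    refine finsum_mem_congr rfl fun v hv => ?_
    have h2 : z * v = v * z := Subgroup.mem_centralizer_iff.1 hv.1 z rfl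
    rw [GKR_cl hBRY hEXB hTRN hSYL hB2 hM hCL hbcL hu.pe hcz hcom.eq.symm h2.symm hu.re hv.2]
  have hfL : (GS p e m M χ L Z).Finite := (hB2 G L).1.subset hbcL.sub
  have hfT : {φ | φ ∈ IrrOn (cz Z) ∧ ∃ ψ ∈ GS p e m M χ L Z, SB M L φ ψ}.Finite := (hB2 G (cz Z)).1.subset hbcC.sub
  have hn1 : (Nat.card (Subgroup.centralizer ({z} : Set G)) : ℂ) ≠ 0 := by exact_mod_cast Nat.card_pos.ne'
  have hn2 : (Nat.card L : ℂ) ≠ 0 := by exact_mod_cast Nat.card_pos.ne'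
  have hn3 : (Nat.card (cz Z) : ℂ) ≠ 0 := by exact_mod_cast Nat.card_pos.ne'
  rw [GVF_sw L hfL] at l1
  rw [GVF_sw (cz Z) hfT] at l2
  have l4 : ∑ᶠ φ ∈ GS p e m M χ L Z, φ (z * x) * mt L ψ φ =
      ∑ᶠ φ ∈ {φ | φ ∈ IrrOn (cz Z) ∧ ∃ ψ ∈ GS p e m M χ L Z, SB M L φ ψ}, φ (z * x) * mt (cz Z) ψ φ := by
    have h1 := mul_left_cancel₀ hn2 ((mul_left_comm _ _ _).symm.trans l1)
    have h2 := mul_left_cancel₀ hn3 ((mul_left_comm _ _ _).symm.trans l2)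
    rw [l3, ← h2] at h1
    exact mul_left_cancel₀ hn1 h1
  have l5 : ∑ᶠ φ ∈ GS p e m M χ L Z, φ (z * x) * mt L ψ φ = ψ (z * x) := by
    have h1 : ∀ φ ∈ GS p e m M χ L Z, φ (z * x) * mt L ψ φ = if φ = ψ then ψ (z * x) else 0 := by
      intro φ hφ
      have h2 : ∑ᶠ y ∈ (L : Set G), ψ y * φ y⁻¹ = ∑ᶠ y : G, ψ y * φ y⁻¹ := by
        rw [finsum_mem_def]
        refine finsum_congr fun y => ?_
        by_cases hy : y ∈ (L : Set G)
        · rw [Set.indicator_of_mem hy]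
        · rw [Set.indicator_of_notMem hy, ((hB2 G L).2 ψ hψI).2.2.2.1 y hy, zero_mul]
      unfold FI.mt
      rw [h2, ((hB2 G L).2 ψ hψI).2.2.2.2 φ hφ.1]
      by_cases h3 : φ = ψ
      · rw [if_pos h3.symm, if_pos h3, div_self hn2, mul_one, h3]
      · rw [if_neg (fun h => h3 h.symm), if_neg h3, zero_div, mul_zero]
    rw [finsum_mem_congr rfl h1, finsum_mem_eq_finite_toFinset_sum _ hfL, Finset.sum_ite_eq', if_pos]
    rw [Set.Finite.mem_toFinset]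
    exact hψ
  -- restriction to X
  have hsubX : GS p e m M χ (cz Z) Z ⊆ {φ | φ ∈ IrrOn (cz Z) ∧ ∃ ψ ∈ GS p e m M χ L Z, SB M L φ ψ} := by
    intro θ hθ
    exact ⟨hθ.1, hGUC p e m t M hM G χ Z z x hZ L hCL θ hθ⟩
  have hX : ∀ φ ∈ {φ | φ ∈ IrrOn (cz Z) ∧ ∃ ψ ∈ GS p e m M χ L Z, SB M L φ ψ}, φ (z * x) ≠ 0 → φ ∈ GS p e m M χ (cz Z) Z := by
    rintro φ ⟨hφ, ψ', hψ', hs⟩ hne
    have h1 : SB M (⊤ : Subgroup G) φ χ := by
      have h2 : ∀ y, y ∉ L → φ y = 0 := fun y hy => ((hB2 G (cz Z)).2 φ hφ).2.2.2.1 y fun h => hy (hCL h)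
      exact ((hTRN G M L ⊤ le_top φ ψ' χ h2 ((hB2 G L).2 ψ' hψ'.1).2.2.2.1 hs).1).trans hψ'.2.1
    obtain ⟨g, -, hug⟩ := hNUH p e m M hM G ⊤ (cz Z) le_top φ hφ χ hZ.ch z x h1 hu
      (fun Q y hQ => inf_le_right.trans (hNLQ p M hM G (cz Z) Z hg3.2 hg5.2.2.2.2 le_rfl φ hφ φ hφ (SB.refl _ φ) Q y hQ))
    obtain ⟨D, y, hD, -⟩ := hDEX p M hM G (cz Z) φ hφ
    have hxv : x ∈ Cz (cz Z) z := by rw [hCzC]; exact hxz
    obtain ⟨c, hc, hcD⟩ := hGVN p M hM G (cz Z) φ hφ D y hD z hzC hu.pe x hxv hu.re hne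
    have hord : orderOf (c * z * c⁻¹) = p ^ e := by
      rw [← hu.od]
      exact orderOf_injective (MulAut.conj c).toMonoidHom (MulAut.conj c).injective z
    obtain ⟨k, hk, hke⟩ := (hZNU p e m M hM hem G (cz Z) φ hφ (g * z * g⁻¹) (g * x * g⁻¹) hug).2 D y hD (c * z * c⁻¹) hcD hord
    have hfix : ∀ c ∈ cz Z, cjS c Z = Z := by
      intro c hc
      ext y
      rw [mem_cjS]
      constructor
      · intro hy
        have h3 := Subgroup.mem_centralizer_iff.1 hc _ hy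
        have h4 : c⁻¹ * y * c = y := by
          have h5 : c⁻¹ * y * c * c = y * c := by rw [h3]; group
          exact mul_right_cancel h5
        rwa [h4] at hy
      · intro hy
        have h3 := Subgroup.mem_centralizer_iff.1 hc _ hy
        have h4 : c⁻¹ * y * c = y := by
          calc c⁻¹ * y * c = c⁻¹ * (y * c) := by group
            _ = c⁻¹ * (c * y) := by rw [h3]
            _ = y := by group
        rwa [h4]
    refine ⟨hφ, h1, g * z * g⁻¹, g * x * g⁻¹, hug, ?_⟩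
    rw [hke, hg1 c, hZ.zz, hfix c hc, hfix k hk]
  have l6 : ψ (z * x) = ∑ᶠ φ ∈ GS p e m M χ (cz Z) Z, φ (z * x) * mt (cz Z) ψ φ := by
    rw [← l5, l4]
    refine finsum_mem_inter_support_eq _ _ _ ?_
    ext φ
    constructor
    · rintro ⟨h1, h2⟩
      refine ⟨hX φ h1 fun h => h2 ?_, h2⟩
      change φ (z * x) * mt (cz Z) ψ φ = 0
      rw [h, zero_mul]
    · rintro ⟨h1, h2⟩
      exact ⟨hsubX h1, h2⟩
  -- the twist
  have hfX : (GS p e m M χ (cz Z) Z).Finite := (hB2 G (cz Z)).1.subset fun φ h => h.1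
  obtain ⟨zl1, zl2, zl3, zl4, zl5, zl6, zl7⟩ := hZLM p e t hM.pr G hZ.tx Z (1 : Z →* ℂˣ)
  have hlm : ∀ (ν ν' : Z →* ℂˣ) (g : G), lam Z t (ν * ν') g = lam Z t ν g * lam Z t ν' g := fun ν ν' g =>
    (hZLM p e t hM.pr G hZ.tx Z ν).2.1.1 ν' g
  have hl1 : ∀ g : G, lam Z t (1 : Z →* ℂˣ) g = 1 := zl2.2
  have hst : ∀ (ν ν' : Z →* ℂˣ) (θ : G → ℂ), st Z t ν (st Z t ν' θ) = st Z t (ν * ν') θ := by
    intro ν ν' θ
    funext g
    change lam Z t ν g * (lam Z t ν' g * θ g) = lam Z t (ν * ν') g * θ g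
    rw [hlm, mul_assoc]
  have hst1 : ∀ θ : G → ℂ, st Z t 1 θ = θ := by
    intro θ
    funext g
    change lam Z t 1 g * θ g = θ g
    rw [hl1, one_mul]
  have hi1 : ∀ ν : Z →* ℂˣ, ν⁻¹ * ν = 1 := by
    intro ν
    ext y
    simp
  have hi2 : ∀ ν : Z →* ℂˣ, ν * ν⁻¹ = 1 := by
    intro ν
    ext y
    simp
  have l7 : ∀ ν : Z →* ℂˣ, ψ (z * x) = ∑ᶠ θ ∈ GS p e m M χ (cz Z) Z, θ (z * x) * lam Z t ν (z * x) * mt (cz Z) ψ (st Z t ν θ) := by
    intro ν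
    rw [l6]
    symm
    refine finsum_mem_eq_of_bijOn (fun θ => st Z t ν θ) ⟨?_, ?_, ?_⟩ ?_
    · intro θ hθ
      exact (hGST p e m t M hM G χ Z z x hZ θ hθ ν).1
    · intro θ _ θ' _ h
      have h1 : st Z t ν θ = st Z t ν θ' := h
      have h2 : st Z t ν⁻¹ (st Z t ν θ) = st Z t ν⁻¹ (st Z t ν θ') := by rw [h1]
      rwa [hst, hst, hi1, hst1, hst1] at h2
    · intro θ hθ
      refine ⟨st Z t ν⁻¹ θ, (hGST p e m t M hM G χ Z z x hZ θ hθ ν⁻¹).1, ?_⟩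
      change st Z t ν (st Z t ν⁻¹ θ) = θ
      rw [hst, hi2, hst1]
    · intro θ _
      change _ = lam Z t ν (z * x) * θ (z * x) * mt (cz Z) ψ (st Z t ν θ)
      ring
  -- the sum of the characters of Z
  have hcyc : IsCyclic Z := by
    rw [← hZ.zz]
    unfold Zg
    infer_instance
  have hpow : (z * x) ^ t = z ^ p ^ (e - 3) := by
    rw [hcom.mul_pow, hZ.tx.pe z hu.pe, hZ.tx.re x hu.re, mul_one]
  have hyZ : z ^ p ^ (e - 3) ∈ Z := hg7.1
  have hlv : ∀ ν : Z →* ℂˣ, lam Z t ν (z * x) = ((ν ⟨z ^ p ^ (e - 3), hyZ⟩ : ℂˣ) : ℂ) := by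
    intro ν
    unfold lam
    have h1 : (z * x) ^ t ∈ Z := by rw [hpow]; exact hyZ
    rw [dif_pos h1]
    have h2 : (⟨(z * x) ^ t, h1⟩ : Z) = ⟨z ^ p ^ (e - 3), hyZ⟩ := Subtype.ext hpow
    rw [h2]
  have : Fintype (Z →* ℂˣ) := Fintype.ofFinite _
  have hsum : ∑ ν : Z →* ℂˣ, lam Z t ν (z * x) = 0 := by
    obtain ⟨μ, hμ⟩ := GOS_dual' Z ⟨z ^ p ^ (e - 3), hyZ⟩ (by
      intro h
      have h1 : z ^ p ^ (e - 3) = 1 := congrArg Subtype.val h
      have h2 := hg7.2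
      rw [h1, orderOf_one] at h2
      have h3 : 1 < p ^ 3 := Nat.one_lt_pow (by norm_num) hM.pr.one_lt
      omega)
    have h1 : ∑ ν : Z →* ℂˣ, lam Z t ν (z * x) = lam Z t μ (z * x) * ∑ ν : Z →* ℂˣ, lam Z t ν (z * x) := by
      rw [Finset.mul_sum]
      symm
      refine Fintype.sum_equiv (Equiv.mulLeft μ) _ _ fun ν => ?_
      change _ = lam Z t (μ * ν) (z * x)
      rw [hlm]
    have h2 : (lam Z t μ (z * x) - 1) * ∑ ν : Z →* ℂˣ, lam Z t ν (z * x) = 0 := by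
      rw [sub_mul, one_mul, ← h1, sub_self]
    rcases mul_eq_zero.1 h2 with h3 | h3
    · exfalso
      refine hμ ?_
      rw [hlv] at h3
      exact Units.ext (by rw [Units.val_one]; exact sub_eq_zero.1 h3)
    · exact h3
  have hN : (Nat.card (Z →* ℂˣ) : ℂ) ≠ 0 := by
    have : Nonempty (Z →* ℂˣ) := ⟨1⟩
    exact_mod_cast Nat.card_pos.ne'
  -- conclusion
  have hmain : (Nat.card (Z →* ℂˣ) : ℂ) * ψ (z * x) = - ∑ᶠ θ ∈ GS p e m M χ (cz Z) Z, ∑ᶠ ν : Z →* ℂˣ,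
      θ (z * x) * lam Z t ν (z * x) * (mt (cz Z) ψ θ - mt (cz Z) ψ (st Z t ν θ)) := by
    rw [finsum_mem_eq_finite_toFinset_sum _ hfX, ← Finset.sum_neg_distrib]
    have h1 : (Nat.card (Z →* ℂˣ) : ℂ) * ψ (z * x) = ∑ ν : Z →* ℂˣ, ∑ θ ∈ hfX.toFinset,
        θ (z * x) * lam Z t ν (z * x) * mt (cz Z) ψ (st Z t ν θ) := by
      rw [Nat.card_eq_fintype_card, ← Finset.card_univ, ← nsmul_eq_mul, ← Finset.sum_const]
      refine Finset.sum_congr rfl fun ν _ => ?_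
      rw [l7 ν, finsum_mem_eq_finite_toFinset_sum _ hfX]
    rw [h1, Finset.sum_comm]
    refine Finset.sum_congr rfl fun θ _ => ?_
    rw [finsum_eq_sum_of_fintype]
    have h2 : ∑ ν : Z →* ℂˣ, θ (z * x) * lam Z t ν (z * x) * (mt (cz Z) ψ θ - mt (cz Z) ψ (st Z t ν θ)) =
        (∑ ν : Z →* ℂˣ, lam Z t ν (z * x)) * (θ (z * x) * mt (cz Z) ψ θ) -
          ∑ ν : Z →* ℂˣ, θ (z * x) * lam Z t ν (z * x) * mt (cz Z) ψ (st Z t ν θ) := by
      rw [Finset.sum_mul, ← Finset.sum_sub_distrib]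
      refine Finset.sum_congr rfl fun ν _ => ?_
      ring
    rw [h2, hsum, zero_mul, zero_sub, neg_neg]
  rw [← mul_right_inj' hN, hmain]
  rw [mul_neg, mul_inv_cancel_left₀ hN]

end Pool.Agent.ND.NY
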